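import Pool.Agent.TH803.CL.NearS
import Pool.Agent.TH803.UC.Sets
import Pool.Agent.H370R2.DirGood

/-!
# Simple critical zeros with a free direction: more than half of all zeros

Let `F` be the zeta function or a primitive Dirichlet L-function, and `τ` a real number. An upper bound for
the zeros to the right of the critical line (half of the zeros that are not simple critical zeros, by the
functional equation) shows that few points of the critical line are blocked in the direction `1 + iτ`.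
-/

set_option autoImplicit false

open Complex Filter Topology
open H370

namespace Pool.Agent.U745.DS.Major

/-- no zero of `F` on the ray from `s` in the direction `1 + iτ`, inside the critical strip -/
def Clr (F : ℂ → ℂ) (τ : ℝ) (s : ℂ) : Prop :=
  ∀ y : ℝ, 0 < y → y < 1 / 2 → F (s + (1 + τ * I) * y) ≠ 0

open Classical in
/-- the simple zeros on the critical line, with ordinate in `(A, B]`, which are clear -/
noncomputable def fr (F : ℂ → ℂ) (τ A B : ℝ) : Finset ℂ :=
  (Zf F A B).filter (fun s => s.re = 1 / 2 ∧ mult F s = 1 ∧ Clr F τ s)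

theorem win {F : ℂ → ℂ} (hF : GoodL F) {C : ℝ} (hC : 0 < C)
    (h : ∀ t : ℝ, 3 ≤ t → (NN F (t - 1) (t + 1) : ℝ) ≤ C * Real.log t)
    {a : ℝ} (ha : 2 ≤ a) (k : ℕ) : (NN F a (a + 2 * k) : ℝ) ≤ k * (C * Real.log (a + 2 * k)) := by
  induction k with
  | zero =>
    have h1 := NN_add hF (a := a) (b := a) (c := a) (by linarith) le_rfl le_rfl
    have h2 : NN F a a = 0 := by omega
    simp [h2]
  | succ k ih =>
    have hk : (0 : ℝ) ≤ k := Nat.cast_nonneg k
    have h1 := NN_add hF (a := a) (b := a + 2 * k) (c := a + 2 * k + 2) (by linarith) (by linarith)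
      (by linarith)
    have h2 := h (a + 2 * k + 1) (by linarith)
    have e1 : a + 2 * k + 1 - 1 = a + 2 * k := by ring
    have e2 : a + 2 * k + 1 + 1 = a + 2 * k + 2 := by ring
    rw [e1, e2] at h2
    have e3 : a + 2 * ((k + 1 : ℕ) : ℝ) = a + 2 * k + 2 := by push_cast; ring
    rw [e3, h1]
    push_cast
    have h3 : Real.log (a + 2 * k) ≤ Real.log (a + 2 * k + 2) :=
      Real.log_le_log (by linarith) (by linarith)
    have h4 : Real.log (a + 2 * k + 1) ≤ Real.log (a + 2 * k + 2) :=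
      Real.log_le_log (by linarith) (by linarith)
    have h5 : (k : ℝ) * (C * Real.log (a + 2 * k)) ≤ k * (C * Real.log (a + 2 * k + 2)) := by gcongr
    have h6 : C * Real.log (a + 2 * k + 1) ≤ C * Real.log (a + 2 * k + 2) := by gcongr
    linarith

theorem ends {F : ℂ → ℂ} (hF : GoodL F) (k : ℕ) : ∃ C : ℝ, 0 < C ∧ ∀ T : ℝ, 2 * k + 10 ≤ T →
    ∀ H : ℝ, 0 ≤ H → H ≤ T →
      (NN F (T - 2 * k) (T + H + 2 * k) : ℝ) ≤ NN F T (T + H) + C * Real.log T := by
  obtain ⟨C, hC, hz⟩ := zcount hF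
  refine ⟨3 * k * C + 1, by positivity, fun T hT H hH hHT => ?_⟩
  have hk : (0 : ℝ) ≤ k := Nat.cast_nonneg k
  have h1 := NN_add hF (a := T - 2 * k) (b := T) (c := T + H + 2 * k) (by linarith) (by linarith)
    (by linarith)
  have h2 := NN_add hF (a := T) (b := T + H) (c := T + H + 2 * k) (by linarith) (by linarith)
    (by linarith)
  have h3 := win hF hC hz (a := T - 2 * k) (by linarith) k
  have h4 := win hF hC hz (a := T + H) (by linarith) k
  have e1 : T - 2 * (k : ℝ) + 2 * k = T := by ring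
  rw [e1] at h3
  have hL : 0 ≤ Real.log T := Real.log_nonneg (by linarith)
  have h5 : Real.log (T + H + 2 * k) ≤ 2 * Real.log T := by
    have h6 : T + H + 2 * k ≤ T ^ 2 := by nlinarith
    have h7 := Real.log_le_log (by linarith) h6
    rw [Real.log_pow] at h7
    exact_mod_cast h7
  have h6 : (k : ℝ) * (C * Real.log (T + H + 2 * k)) ≤ k * (C * (2 * Real.log T)) := by gcongr
  have h7 : (NN F (T - 2 * k) (T + H + 2 * k) : ℝ) =
      NN F (T - 2 * k) T + (NN F T (T + H) + NN F (T + H) (T + H + 2 * k)) := by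
    rw [h1, h2]
    push_cast
    ring
  rw [h7]
  nlinarith

theorem lower {F : ℂ → ℂ} (hF : GoodL F) {h : ℝ} (hh : 0 < h) (M : ℝ) : ∃ T0 : ℝ, ∀ T : ℝ, T0 ≤ T →
    ∀ H : ℝ, T ^ h ≤ H → H ≤ T → M * Real.log T ≤ NN F T (T + H) := by
  obtain ⟨C, hC, hz⟩ := H965SI.nn_asymp_short hF
  have hpi := Real.pi_pos
  have htop : Tendsto (fun T : ℝ => T ^ h) atTop atTop := tendsto_rpow_atTop hh
  have hlog := Real.tendsto_log_atTop
  have ho : ∀ᶠ T : ℝ in atTop, 8 * Real.pi * C * Real.log T ≤ T ^ h := by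
    have h7 : (fun x : ℝ => 8 * Real.pi * C * Real.log x) =o[atTop] fun x => x ^ h :=
      (isLittleO_log_rpow_atTop hh).const_mul_left _
    have h8 := h7.bound (show (0 : ℝ) < 1 by norm_num)
    filter_upwards [h8, eventually_gt_atTop 1] with x h9 hx
    have h10 : (0 : ℝ) ≤ x ^ h := Real.rpow_nonneg (by linarith) _
    rw [Real.norm_eq_abs, Real.norm_eq_abs, abs_of_nonneg h10, one_mul] at h9
    exact (le_abs_self _).trans h9
  have hev := (((ho.and (htop.eventually (eventually_ge_atTop (max 3 (4 * Real.pi * M))))).and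
    (hlog.eventually (eventually_ge_atTop (8 * Real.pi * C)))).and (eventually_ge_atTop (10 : ℝ)))
  rw [eventually_atTop] at hev
  obtain ⟨T0, hT0⟩ := hev
  refine ⟨T0, fun T hT H hH hHT => ?_⟩
  obtain ⟨⟨⟨a1, a2⟩, a3⟩, a4⟩ := hT0 T hT
  have b1 : 3 ≤ H := (le_max_left _ _).trans (a2.trans hH)
  have b2 : 4 * Real.pi * M ≤ H := (le_max_right _ _).trans (a2.trans hH)
  have b3 := (abs_le.1 (hz T a4 H b1 hHT T (T + H) le_rfl (by linarith) (by linarith) le_rfl)).1
  set L := Real.log T with hL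
  have hL0 : 0 < L := Real.log_pos (by linarith)
  have c1 : C * H ≤ H * L / (8 * Real.pi) := by
    rw [le_div_iff₀ (by positivity)]
    nlinarith
  have c2 : C * L ^ 2 ≤ H * L / (8 * Real.pi) := by
    rw [le_div_iff₀ (by positivity)]
    have : 8 * Real.pi * C * L ≤ H := a1.trans hH
    nlinarith
  have c3 : M * L ≤ H * L / (4 * Real.pi) := by
    rw [le_div_iff₀ (by positivity)]
    nlinarith
  have c4 : H * L / (2 * Real.pi) = H * L / (8 * Real.pi) + H * L / (8 * Real.pi) +
      H * L / (4 * Real.pi) := by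
    field_simp
    ring
  nlinarith

open Classical in
/-- the zeros to the right of the line and the simple critical zeros -/
theorem right_count {F : ℂ → ℂ} (hF : GoodL F) {A B A' B' d : ℝ} (hA : 1 ≤ A') (h1 : A' ≤ A)
    (h2 : B ≤ B') :
    2 * ((Zf F A' B').filter (fun s => 1 / 2 < s.re)).card + (TH803CL.isoA F A B d).card ≤
      NN F A' B' := by
  set Z' := Zf F A' B' with hZ'
  set R := Z'.filter (fun s => 1 / 2 < s.re) with hR
  set L := Z'.filter (fun s => s.re < 1 / 2) with hL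
  set S := TH803CL.isoA F A B d with hS
  have hRL : R.card ≤ L.card := by
    refine Finset.card_le_card_of_injOn (fun s => 1 - (starRingEnd ℂ) s) ?_ ?_
    · intro s hs
      rw [Finset.mem_coe, hR, Finset.mem_filter] at hs
      rw [Finset.mem_coe, hL, Finset.mem_filter]
      have hz := zset_refl hF hA ((mem_Zf hF hA).mp hs.1)
      refine ⟨(mem_Zf hF hA).mpr hz, ?_⟩
      simp only [sub_re, one_re, conj_re]
      linarith [hs.2]
    · intro s _ s' _ h
      have h3 : (starRingEnd ℂ) s = (starRingEnd ℂ) s' := by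
        have := congrArg (fun z => 1 - z) h
        simpa using this
      exact (starRingEnd ℂ).injective h3
  have hSZ : S ⊆ Z' := by
    intro s hs
    rw [hS] at hs
    unfold TH803CL.isoA at hs
    rw [Finset.mem_filter] at hs
    have h3 := (mem_Zf hF (hA.trans h1)).mp hs.1
    exact (mem_Zf hF hA).mpr ⟨h3.1, h3.2.1, by linarith [h3.2.2.1], by linarith [h3.2.2.2.1],
      h3.2.2.2.2⟩
  have hSre : ∀ s ∈ S, s.re = 1 / 2 := by
    intro s hs
    rw [hS] at hs
    unfold TH803CL.isoA at hs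
    rw [Finset.mem_filter] at hs
    exact hs.2.1
  have hd1 : Disjoint R L := by
    rw [Finset.disjoint_left]
    intro s a b
    rw [hR, Finset.mem_filter] at a
    rw [hL, Finset.mem_filter] at b
    linarith [a.2, b.2]
  have hd2 : Disjoint (R ∪ L) S := by
    rw [Finset.disjoint_left]
    intro s a b
    have h3 := hSre s b
    rw [Finset.mem_union, hR, hL, Finset.mem_filter, Finset.mem_filter] at a
    rcases a with a | a
    · linarith [a.2]
    · linarith [a.2]
  have hc : ((R ∪ L) ∪ S).card ≤ Z'.card := by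
    refine Finset.card_le_card ?_
    intro s hs
    rw [Finset.mem_union, Finset.mem_union] at hs
    rcases hs with (hs | hs) | hs
    · exact (Finset.mem_filter.1 hs).1
    · exact (Finset.mem_filter.1 hs).1
    · exact hSZ hs
  rw [Finset.card_union_of_disjoint hd2, Finset.card_union_of_disjoint hd1] at hc
  have hN : Z'.card ≤ NN F A' B' := by
    rw [NN_eq hF hA, Finset.card_eq_sum_ones]
    refine Finset.sum_le_sum fun s hs => ?_
    have h3 := (mem_Zf hF hA).mp hs
    exact Loc.mult_pos' hF (by linarith [h3.2.2.1]) h3.2.2.2.2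
  omega

open Classical in
/-- the blocked points of the critical line -/
theorem blocked_count {F : ℂ → ℂ} (hF : GoodL F) (τ : ℝ) {k : ℕ} (hk : |τ| ≤ 2 * k) {A B d : ℝ}
    (hA : 1 ≤ A - 2 * k) :
    ((TH803CL.isoA F A B d).filter (fun s => ¬ Clr F τ s)).card ≤
      ((Zf F (A - 2 * k) (B + 2 * k)).filter (fun s => 1 / 2 < s.re)).card := by
  have hex : ∀ s : ℂ, ∃ y : ℝ, ¬ Clr F τ s → 0 < y ∧ y < 1 / 2 ∧ F (s + (1 + τ * I) * y) = 0 := by
    intro s
    by_cases h : Clr F τ s
    · exact ⟨0, fun h1 => absurd h h1⟩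
    · unfold Clr at h
      push Not at h
      obtain ⟨y, h1, h2, h3⟩ := h
      exact ⟨y, fun _ => ⟨h1, h2, h3⟩⟩
  choose y hy using hex
  have hk0 : (0 : ℝ) ≤ k := Nat.cast_nonneg k
  have hre : ∀ s : ℂ, (s + (1 + τ * I) * y s).re = s.re + y s := by intro s; simp
  have him : ∀ s : ℂ, (s + (1 + τ * I) * y s).im = s.im + τ * y s := by intro s; simp
  have hmem : ∀ s ∈ (TH803CL.isoA F A B d).filter (fun s => ¬ Clr F τ s),
      (A < s.im ∧ s.im ≤ B ∧ s.re = 1 / 2) ∧ 0 < y s ∧ y s < 1 / 2 ∧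
        F (s + (1 + τ * I) * y s) = 0 := by
    intro s hs
    rw [Finset.mem_filter] at hs
    obtain ⟨hs1, hs2⟩ := hs
    unfold TH803CL.isoA at hs1
    rw [Finset.mem_filter] at hs1
    have h3 := (mem_Zf hF (by linarith : (1 : ℝ) ≤ A)).mp hs1.1
    exact ⟨⟨h3.2.2.1, h3.2.2.2.1, hs1.2.1⟩, hy s hs2⟩
  refine Finset.card_le_card_of_injOn (fun s => s + (1 + τ * I) * y s) ?_ ?_
  · intro s hs
    rw [Finset.mem_coe] at hs
    obtain ⟨⟨h1, h2, h3⟩, h4, h5, h6⟩ := hmem s hs
    rw [Finset.mem_coe, Finset.mem_filter]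
    have h7 : |τ * y s| ≤ k := by
      rw [abs_mul, abs_of_pos h4]
      nlinarith [abs_nonneg τ]
    have h8 := abs_le.1 h7
    refine ⟨(mem_Zf hF hA).mpr ⟨?_, ?_, ?_, ?_, h6⟩, ?_⟩
    · rw [hre]; linarith
    · rw [hre]; linarith
    · rw [him]; linarith [h8.1]
    · rw [him]; linarith [h8.2]
    · rw [hre]; linarith
  · intro s hs s' hs' h
    rw [Finset.mem_coe] at hs hs'
    obtain ⟨⟨-, -, h3⟩, -⟩ := hmem s hs
    obtain ⟨⟨-, -, h3'⟩, -⟩ := hmem s' hs'
    have e1 := congrArg Complex.re h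
    have e2 := congrArg Complex.im h
    simp only [hre, him] at e1 e2
    have e3 : y s = y s' := by linarith
    rw [e3] at e2
    refine Complex.ext (h3.trans h3'.symm) (by linarith)

/-- **More than half of the zeros are simple critical zeros which are clear in a given direction.** -/
theorem main : ∃ h₀ : ℝ, 0 < h₀ ∧ h₀ < 1 ∧ ∀ F : ℂ → ℂ, GoodL F → ∀ τ : ℝ, ∃ T₀ : ℝ, ∀ T : ℝ,
    T₀ ≤ T → ∀ H : ℝ, T ^ h₀ ≤ H → H ≤ T →
      5087 / 10000 * (NN F T (T + H) : ℝ) ≤ ((fr F τ T (T + H)).card : ℝ) := by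
  classical
  obtain ⟨κ, h0, hκ, hh0, hh1, hmain⟩ := TH803CL.isoS_main
  refine ⟨h0, hh0, hh1, fun F hF τ => ?_⟩
  obtain ⟨δ, hδ0, hδ1, hδ2⟩ : ∃ δ : ℝ, 0 < δ ∧ δ ≤ 1 / 30 ∧ 74 * δ ^ 2 ≤ κ := by
    refine ⟨min (1 / 30) (κ / 74), by positivity, min_le_left _ _, ?_⟩
    have h1 : min (1 / 30) (κ / 74) ≤ 1 / 30 := min_le_left _ _
    have h2 : min (1 / 30) (κ / 74) ≤ κ / 74 := min_le_right _ _
    have h3 : 0 < min (1 / 30) (κ / 74) := by positivity
    nlinarith
  obtain ⟨T1, hT1, h1⟩ := hmain F hF δ hδ0 hδ1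
  obtain ⟨k, hk⟩ : ∃ k : ℕ, |τ| ≤ 2 * k := by
    obtain ⟨k, hk⟩ := exists_nat_ge |τ|
    have : (0 : ℝ) ≤ k := Nat.cast_nonneg k
    exact ⟨k, by linarith⟩
  obtain ⟨C, hC, h2⟩ := ends hF k
  obtain ⟨T2, h3⟩ := lower hF hh0 (10000 * C)
  have hcc : H295SI.cc 1 ≤ 1.3275 := TH803UC.cc_lt
  refine ⟨max (max T1 T2) (2 * k + 10), fun T hT H hH hHT => ?_⟩
  have g1 : T1 ≤ T := (le_max_left _ _).trans ((le_max_left _ _).trans hT)
  have g2 : T2 ≤ T := (le_max_right _ _).trans ((le_max_left _ _).trans hT)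
  have g3 : 2 * (k : ℝ) + 10 ≤ T := (le_max_right _ _).trans hT
  have hk0 : (0 : ℝ) ≤ k := Nat.cast_nonneg k
  have hH0 : 0 ≤ H := (Real.rpow_nonneg (by linarith) _).trans hH
  set d := δ / Real.log T with hd
  have a1 := h1 T g1 H hH hHT
  have a2 := h2 T g3 H hH0 hHT
  have a3 := h3 T g2 H hH hHT
  have a4 := right_count hF (A := T) (B := T + H) (A' := T - 2 * k) (B' := T + H + 2 * k) (d := d)
    (by linarith) (by linarith) (by linarith)
  have a5 := blocked_count hF τ hk (A := T) (B := T + H) (d := d) (by linarith)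
  set S := TH803CL.isoA F T (T + H) d with hS
  have a6 : S.card ≤ (fr F τ T (T + H)).card + (S.filter (fun s => ¬ Clr F τ s)).card := by
    rw [← Finset.card_filter_add_card_filter_not (s := S) (fun s => Clr F τ s)]
    refine Nat.add_le_add_right (Finset.card_le_card ?_) _
    intro s hs
    rw [Finset.mem_filter] at hs
    have h5 := hs.1
    rw [hS] at h5
    unfold TH803CL.isoA at h5
    rw [Finset.mem_filter] at h5
    unfold fr
    rw [Finset.mem_filter]
    exact ⟨h5.1, h5.2.1, h5.2.2.1, hs.2⟩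
  have b4 : 2 * (((Zf F (T - 2 * k) (T + H + 2 * k)).filter (fun s => 1 / 2 < s.re)).card : ℝ) +
      (S.card : ℝ) ≤ (NN F (T - 2 * k) (T + H + 2 * k) : ℝ) := by exact_mod_cast a4
  have b5 : ((S.filter (fun s => ¬ Clr F τ s)).card : ℝ) ≤
      (((Zf F (T - 2 * k) (T + H + 2 * k)).filter (fun s => 1 / 2 < s.re)).card : ℝ) := by
    exact_mod_cast a5
  have b6 : (S.card : ℝ) ≤ ((fr F τ T (T + H)).card : ℝ) +
      ((S.filter (fun s => ¬ Clr F τ s)).card : ℝ) := by exact_mod_cast a6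
  have hN0 : (0 : ℝ) ≤ NN F T (T + H) := Nat.cast_nonneg _
  have b1 : 6725 / 10000 * (NN F T (T + H) : ℝ) ≤ (S.card : ℝ) := by
    refine le_trans ?_ a1
    refine mul_le_mul_of_nonneg_right ?_ hN0
    norm_num at hcc ⊢
    linarith
  nlinarith

end Pool.Agent.U745.DS.Major
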