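import Pool.Agent.U745.DS.Tfae

/-!
# The equivalences in a form which is convenient for applications
-/

set_option autoImplicit false

namespace Pool.Agent.U745.DS

open Filter Topology MeasureTheory Complex
open Pool.Agent.W524.RY (dir)
open Pool.Agent.W189.LC (kap)
open Pool.Agent.U745.LT (Leading leading_iff)

variable {ι : Type} [Countable ι] {lam : ι → ℝ} {c : ι → ℂ} {A : ℝ} {F : ℂ → ℂ}

theorem law_of_leading (h : Ser lam c A F) {ρ : ℤ} {B : ℂ} (hB : B ≠ 0) (h1 : Leading F 0 ρ B)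
    {τ : ℝ} (hτ : Clear F τ) : Law lam c τ ρ B := by
  have h2 : Leading F 0 ρ B ↔ ∀ τ : ℝ, Clear F τ → Law lam c τ ρ B := (tfae h ρ hB).out 0 2
  exact h2.1 h1 τ hτ

theorem leading_of_seq (h : Ser lam c A F) {ρ : ℤ} {B : ℂ} (hB : B ≠ 0) {τ : ℝ} {X : ℕ → ℝ}
    (hX : Tendsto X atTop atTop)
    (h1 : Tendsto (fun n => exp (WW lam c τ (X n)) *
          (Real.log (X n) / (dir τ * Real.exp kap)) ^ ρ) atTop (𝓝 B)) : Leading F 0 ρ B := by
  have h2 : Leading F 0 ρ B ↔ ∃ (τ : ℝ) (X : ℕ → ℝ), Tendsto X atTop atTop ∧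
        Tendsto (fun n => exp (WW lam c τ (X n)) *
          (Real.log (X n) / (dir τ * Real.exp kap)) ^ ρ) atTop (𝓝 B) := (tfae h ρ hB).out 0 1
  exact h2.2 ⟨τ, X, hX, h1⟩

theorem leading_iff_seq (h : Ser lam c A F) {ρ : ℤ} {B : ℂ} (hB : B ≠ 0) :
    Leading F 0 ρ B ↔ ∃ (τ : ℝ) (X : ℕ → ℝ), Tendsto X atTop atTop ∧
        Tendsto (fun n => exp (WW lam c τ (X n)) *
          (Real.log (X n) / (dir τ * Real.exp kap)) ^ ρ) atTop (𝓝 B) := (tfae h ρ hB).out 0 1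

theorem leading_iff_law (h : Ser lam c A F) {ρ : ℤ} {B : ℂ} (hB : B ≠ 0) :
    Leading F 0 ρ B ↔ ∀ τ : ℝ, Clear F τ → Law lam c τ ρ B := (tfae h ρ hB).out 0 2

end Pool.Agent.U745.DS
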