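import Pool.Agent.U745.DS.Gen

/-!
# The asymptotic formulas
-/

set_option autoImplicit false

namespace Pool.Agent.U745.DS

open Filter Topology MeasureTheory Complex
open Pool.Agent.W524.RY (dir dir_re dir_im dir_ne dir_mul_re dir_mul_real_re inv_gamma_le J_cexp
  main_abs)
open Pool.Agent.W189.ML (HS J J_hasSum J_const_mul Adm grow grow_ge grow_zero exp_gap grow_nonneg)
open Pool.Agent.W189.LC (kap J_log_eq)
open Pool.Agent.R409.RA (nfm nfm_analytic nfm_eq nfm_self order_of_ne)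
open Pool.Agent.U745.LT (refined_abs Leading leading_iff)

variable {ι : Type} [Countable ι] {lam : ι → ℝ} {c : ι → ℂ} {A : ℝ} {F : ℂ → ℂ}

/-- the linear map -/
noncomputable def LL (A τ : ℝ) (w : ℂ) : ℂ := dir τ * (((A + 1 : ℝ) : ℂ) * w)

lemma LL_an (A τ : ℝ) (w : ℂ) : AnalyticAt ℂ (LL A τ) w := by
  unfold LL
  fun_prop

lemma LL_deriv {A : ℝ} (hA : 0 ≤ A) (τ : ℝ) (w : ℂ) : deriv (LL A τ) w ≠ 0 := by
  have : HasDerivAt (LL A τ) (dir τ * ((A + 1 : ℝ) : ℂ)) w := by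
    have h1 := ((hasDerivAt_id w).const_mul ((A + 1 : ℝ) : ℂ)).const_mul (dir τ)
    rw [mul_one] at h1
    exact h1
  rw [this.deriv]
  refine mul_ne_zero (dir_ne τ) ?_
  exact_mod_cast (by linarith : A + 1 ≠ 0)

lemma LL_real (A τ x : ℝ) : LL A τ x = rp τ ((A + 1) * x) := by
  unfold LL rp
  push_cast
  rfl

/-- the function with the zero or pole removed -/
noncomputable def RR (F : ℂ → ℂ) (A τ x₀ : ℝ) (m : ℤ) (w : ℂ) : ℂ :=
  (w - ((x₀ / (A + 1) : ℝ) : ℂ)) ^ (-m) * F (LL A τ w)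

omit [Countable ι] in
lemma Ser.mer_P (h : Ser lam c A F) (τ : ℝ) {x : ℝ} (hx : 0 ≤ x) :
    MeromorphicAt (F ∘ LL A τ) x := by
  have hA := h.A0
  rw [meromorphicAt_comp_iff_of_deriv_ne_zero (LL_an A τ _) (LL_deriv hA τ _), LL_real]
  apply h.mer
  rw [rp_re]
  positivity

omit [Countable ι] in
lemma Ser.mer_R (h : Ser lam c A F) (τ x₀ : ℝ) (m : ℤ) {x : ℝ} (hx : 0 ≤ x) :
    MeromorphicAt (RR F A τ x₀ m) x := by
  have h2 : MeromorphicAt (fun w : ℂ => (w - ((x₀ / (A + 1) : ℝ) : ℂ)) ^ (-m)) x :=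
    MeromorphicAt.fun_zpow (by fun_prop) _
  exact h2.fun_mul (h.mer_P τ hx)

omit [Countable ι] in
lemma Ser.ord_P (h : Ser lam c A F) (τ : ℝ) (w : ℂ) :
    meromorphicOrderAt (F ∘ LL A τ) w = meromorphicOrderAt F (LL A τ w) :=
  meromorphicOrderAt_comp_of_deriv_ne_zero (LL_an A τ w) (LL_deriv h.A0 τ w)

omit [Countable ι] in
lemma Ser.R_zero (h : Ser lam c A F) (τ : ℝ) {x₀ : ℝ} (h0 : 0 ≤ x₀) {m : ℤ}
    (hm : meromorphicOrderAt F (rp τ x₀) = m) :
    meromorphicOrderAt (RR F A τ x₀ m) ((x₀ / (A + 1) : ℝ) : ℂ) = 0 := by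
  have hA := h.A0
  have hx : 0 ≤ x₀ / (A + 1) := by positivity
  have hL : LL A τ ((x₀ / (A + 1) : ℝ) : ℂ) = rp τ x₀ := by
    rw [LL_real]
    congr 1
    field_simp
  obtain ⟨g, hg, hg0, he⟩ := (meromorphicOrderAt_eq_int_iff (h.mer_P τ hx)).1
    (by rw [h.ord_P, hL, hm])
  have h2 := (meromorphicOrderAt_eq_int_iff (n := 0) (h.mer_R τ x₀ m hx)).2 ⟨g, hg, hg0, by
    filter_upwards [he, self_mem_nhdsWithin] with w hw hw2
    have hw3 : w - ((x₀ / (A + 1) : ℝ) : ℂ) ≠ 0 := sub_ne_zero.2 hw2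
    have hw4 : F (LL A τ w) = (w - ((x₀ / (A + 1) : ℝ) : ℂ)) ^ m • g w := hw
    unfold RR
    rw [hw4, zpow_zero, one_smul, smul_eq_mul, ← mul_assoc, ← zpow_add₀ hw3, neg_add_cancel,
      zpow_zero, one_mul]⟩
  exact_mod_cast h2

omit [Countable ι] in
lemma Ser.R_ne (h : Ser lam c A F) (τ x₀ : ℝ) (m : ℤ) {x : ℝ} (hx : 0 ≤ x)
    (hne : x ≠ x₀ / (A + 1)) (hF : meromorphicOrderAt F (rp τ ((A + 1) * x)) = 0) :
    meromorphicOrderAt (RR F A τ x₀ m) (x : ℂ) = 0 := by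
  obtain ⟨g, hg, hg0, he⟩ := (meromorphicOrderAt_eq_int_iff (n := 0) (h.mer_P τ hx)).1
    (by rw [h.ord_P, LL_real, hF]; rfl)
  have hne' : (x : ℂ) - ((x₀ / (A + 1) : ℝ) : ℂ) ≠ 0 := by
    rw [sub_ne_zero]
    exact_mod_cast hne
  have h2 := (meromorphicOrderAt_eq_int_iff (n := 0) (h.mer_R τ x₀ m hx)).2
    ⟨fun w => (w - ((x₀ / (A + 1) : ℝ) : ℂ)) ^ (-m) * g w, by
      refine AnalyticAt.fun_mul ?_ hg
      exact AnalyticAt.fun_zpow (by fun_prop) hne', by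
      simp only
      exact mul_ne_zero (zpow_ne_zero _ hne') hg0, by
      filter_upwards [he] with w hw
      have hw4 : F (LL A τ w) = (w - (x : ℂ)) ^ (0 : ℤ) • g w := hw
      unfold RR
      rw [hw4, zpow_zero, one_smul, one_smul]⟩
  exact_mod_cast h2

omit [Countable ι] in
lemma Ser.near_three (h : Ser lam c A F) (τ : ℝ) {x₀ : ℝ} (h1 : x₀ ≤ A) (m : ℤ) :
    ∀ᶠ w in 𝓝 (3 : ℂ), A < (LL A τ w).re ∧
      F (LL A τ w) = (w - ((x₀ / (A + 1) : ℝ) : ℂ)) ^ m * nfm (RR F A τ x₀ m) w := by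
  have hA := h.A0
  have h3 : ((3 : ℝ) : ℂ) = 3 := by norm_num
  have hlt : x₀ / (A + 1) ≤ 1 := by
    rw [div_le_one (by linarith)]
    linarith
  have h3x : (3 : ℂ) ≠ ((x₀ / (A + 1) : ℝ) : ℂ) := by
    have : (3 : ℝ) ≠ x₀ / (A + 1) := by linarith
    exact_mod_cast this
  have hre3 : A < (LL A τ 3).re := by
    rw [← h3, LL_real, rp_re]
    linarith
  have ho : IsOpen {z : ℂ | A < z.re} := isOpen_lt continuous_const continuous_re
  have hLc : ContinuousAt (LL A τ) 3 := (LL_an A τ 3).continuousAt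
  have hP3 : AnalyticAt ℂ (F ∘ LL A τ) 3 :=
    AnalyticAt.comp (g := F) (f := LL A τ) (h.analytic hre3).1 (LL_an A τ 3)
  have hR3 : AnalyticAt ℂ (RR F A τ x₀ m) 3 := by
    refine AnalyticAt.fun_mul (f := fun w : ℂ => (w - ((x₀ / (A + 1) : ℝ) : ℂ)) ^ (-m))
      (g := F ∘ LL A τ) ?_ hP3
    exact AnalyticAt.fun_zpow (by fun_prop) (sub_ne_zero.2 h3x)
  filter_upwards [nfm_self hR3, isOpen_ne.mem_nhds h3x, hLc.eventually (ho.mem_nhds hre3)]
    with w hw hw2 hw3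
  refine ⟨hw3, ?_⟩
  rw [hw]
  unfold RR
  rw [← mul_assoc, ← zpow_add₀ (sub_ne_zero.2 hw2), add_neg_cancel, zpow_zero, one_mul]

/-- the geometry and the integral -/
theorem setup (h : Ser lam c A F) (τ : ℝ) : ∃ κ : ℝ, 0 < κ ∧
    ContinuousOn (fun ζ => -DD lam c (LL A τ ζ)) {ζ | 3 ≤ ζ.re ∧ |ζ.im| ≤ κ} ∧
    (∀ ζ : ℂ, 3 ≤ ζ.re → |ζ.im| ≤ κ → ‖-DD lam c (LL A τ ζ)‖ ≤
      ∑' i, ‖c i‖ * Real.exp (-(lam i * (A + 1)))) ∧
    ContinuousAt (fun ζ => -DD lam c (LL A τ ζ)) 3 ∧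
    ∀ T : ℝ, 1 ≤ T → Real.pi * |τ| ≤ T →
      J (3 * ((A + 1) * T)) (fun z => -DD lam c (LL A τ (z / (((A + 1) * T : ℝ) : ℂ)))) =
        -VV lam c τ T := by
  have hA := h.A0
  set κ : ℝ := 1 / (2 * (1 + |τ|)) with hκ
  have hτ0 := abs_nonneg τ
  have hκ0 : 0 < κ := by positivity
  have hκτ : |τ| * κ ≤ 1 / 2 := by
    rw [hκ, mul_one_div, div_le_iff₀ (by positivity)]
    linarith
  have hLre : ∀ ζ : ℂ, (LL A τ ζ).re = (A + 1) * (ζ.re - τ * ζ.im) := by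
    intro ζ
    unfold LL
    rw [dir_mul_re, re_ofReal_mul, im_ofReal_mul]
    ring
  have hstrip : ∀ ζ : ℂ, 3 ≤ ζ.re → |ζ.im| ≤ κ → A + 1 ≤ (LL A τ ζ).re := by
    intro ζ hζ hζi
    rw [hLre]
    have : τ * ζ.im ≤ 1 / 2 := by
      calc τ * ζ.im ≤ |τ| * |ζ.im| := by rw [← abs_mul]; exact le_abs_self _
        _ ≤ |τ| * κ := mul_le_mul_of_nonneg_left hζi hτ0
        _ ≤ 1 / 2 := hκτ
    nlinarith
  have hcomp : ∀ ζ : ℂ, A < (LL A τ ζ).re → ContinuousAt (fun ζ => -DD lam c (LL A τ ζ)) ζ := by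
    intro ζ hζ
    have h5 : ContinuousAt (DD lam c) (LL A τ ζ) := (DD_diff h hζ).continuousAt
    exact (ContinuousAt.comp (g := DD lam c) (f := LL A τ) h5 (LL_an A τ ζ).continuousAt).neg
  refine ⟨κ, hκ0, ?_, ?_, ?_, ?_⟩
  · intro ζ hζ
    have := hstrip ζ hζ.1 hζ.2
    exact (hcomp ζ (by linarith)).continuousWithinAt
  · intro ζ h1 h2
    rw [norm_neg]
    exact DD_le h (hstrip ζ h1 h2)
  · apply hcomp
    rw [hLre]
    norm_num
    linarith
  · intro T hT hτT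
    have hT0 : 0 < T := by linarith
    have hTc : (T : ℂ) ≠ 0 := by exact_mod_cast hT0.ne'
    have hAc : ((A : ℂ) + 1) ≠ 0 := by exact_mod_cast (by linarith : A + 1 ≠ 0)
    have hb0 : 0 ≤ 3 * ((A + 1) * T) := by positivity
    have hre : ∀ z ∈ HS (3 * ((A + 1) * T)), A + 1 ≤ (dir τ * (z / T)).re := by
      intro z hz
      have e1 : (z / T).re = z.re / T := by simp
      have e2 : (z / T).im = z.im / T := by simp
      rw [dir_mul_re, e1, e2]
      have h1 : 3 * (A + 1) ≤ z.re / T := by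
        rw [le_div_iff₀ hT0]
        have := hz.1
        linarith
      have h2 : τ * (z.im / T) ≤ 1 := by
        rw [mul_div_assoc', div_le_one hT0]
        have h3 : τ * z.im ≤ |τ| * |z.im| := by rw [← abs_mul]; exact le_abs_self _
        have h4 : |τ| * |z.im| ≤ |τ| * Real.pi := mul_le_mul_of_nonneg_left hz.2 (abs_nonneg _)
        linarith
      linarith
    have h1 := VV_eq h τ hb0 hre
    rw [← h1]
    congr 1
    funext z
    unfold LL
    congr 2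
    push_cast
    field_simp

/-- **The asymptotic formula**, coarse form -/
theorem asymp (h : Ser lam c A F) (τ : ℝ) {x₀ : ℝ} (h0 : 0 ≤ x₀) (h1 : x₀ ≤ A) {m : ℤ}
    (hm : meromorphicOrderAt F (rp τ x₀) = m)
    (hnz : ∀ x : ℝ, x₀ < x → meromorphicOrderAt F (rp τ x) = 0) :
    ∃ x₁ : ℝ, 0 ≤ x₁ ∧ x₁ ≤ x₀ ∧ (0 < x₀ → x₁ < x₀) ∧ ∃ C T₀ : ℝ, 0 ≤ C ∧ 1 ≤ T₀ ∧
      ∀ T : ℝ, T₀ ≤ T →
      ‖-VV lam c τ T - m * ((Real.log T + grow (x₀ * T) : ℝ) : ℂ)‖ ≤
        C * Real.exp (Real.exp (x₁ * T)) := by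
  have hA := h.A0
  have hA1 : 0 < A + 1 := by linarith
  -- the last but one singular point
  obtain ⟨x₁, hx1, hx2, hx3, hx4⟩ : ∃ x₁ : ℝ, 0 ≤ x₁ ∧ x₁ ≤ x₀ ∧ (0 < x₀ → x₁ < x₀) ∧
      ∀ x : ℝ, x₁ ≤ x → x < x₀ → meromorphicOrderAt F (rp τ x) = 0 := by
    rcases h0.lt_or_eq with h2 | h2
    · have h3 := h.punctured (s := rp τ x₀) (by rw [rp_re]; exact h0)
      have h4 : Tendsto (rp τ) (𝓝[≠] x₀) (𝓝[≠] (rp τ x₀)) := by
        refine tendsto_nhdsWithin_of_tendsto_nhds_of_eventually_within _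
          ((continuous_rp τ).continuousAt.tendsto.mono_left nhdsWithin_le_nhds) ?_
        filter_upwards [self_mem_nhdsWithin] with x hx hx2
        exact hx (rp_injective τ hx2)
      have h5 := h4.eventually h3
      rw [eventually_nhdsWithin_iff, Metric.eventually_nhds_iff] at h5
      obtain ⟨ε, hε, h6⟩ := h5
      refine ⟨max 0 (x₀ - ε / 2), le_max_left _ _, max_le h0 (by linarith), fun _ =>
        max_lt h2 (by linarith), fun x hx hx0 => ?_⟩
      refine h6 ?_ hx0.ne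
      have := (le_max_right 0 (x₀ - ε / 2)).trans hx
      rw [Real.dist_eq, abs_lt]
      constructor <;> linarith
    · refine ⟨0, le_rfl, h0, fun h3 => absurd h3 (by rw [← h2]; exact lt_irrefl 0), fun x hx hx0 => ?_⟩
      linarith
  have hord : ∀ x ∈ Set.Icc (x₁ / (A + 1)) 3, meromorphicOrderAt (RR F A τ x₀ m) (x : ℂ) = 0 := by
    intro x hx
    have hx0 : 0 ≤ x := (div_nonneg hx1 hA1.le).trans hx.1
    have hx5 : x₁ ≤ (A + 1) * x := by
      have := hx.1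
      rw [div_le_iff₀ hA1] at this
      linarith
    rcases lt_trichotomy x (x₀ / (A + 1)) with h2 | h2 | h2
    · refine h.R_ne τ x₀ m hx0 h2.ne (hx4 _ hx5 ?_)
      rw [lt_div_iff₀ hA1] at h2
      linarith
    · rw [h2]
      exact h.R_zero τ h0 hm
    · refine h.R_ne τ x₀ m hx0 h2.ne' (hnz _ ?_)
      rw [div_lt_iff₀ hA1] at h2
      linarith
  obtain ⟨κ, hκ, hS1, hS2, hS3, hJ⟩ := setup h τ
  obtain ⟨C, T₀, hC⟩ := main_abs (S := fun ζ => -DD lam c (LL A τ ζ)) (G := fun _ => 0)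
    (Q := nfm (RR F A τ x₀ m)) (κ := κ) (CG := 0)
    (CS := ∑' i, ‖c i‖ * Real.exp (-(lam i * (A + 1)))) (x₀ := x₀ / (A + 1))
    (x₁ := x₁ / (A + 1)) hκ (by positivity) (by gcongr)
    (by rw [div_le_one hA1]; linarith) m
    (fun ζ h2 h3 => by fun_prop) (fun ζ h2 h3 => by simp)
    hS1 hS2 hS3
    (fun x hx => (nfm_analytic (h.mer_R τ x₀ m ((div_nonneg hx1 hA1.le).trans hx.1))
      (hord x hx)).1)
    (fun x hx => (nfm_analytic (h.mer_R τ x₀ m ((div_nonneg hx1 hA1.le).trans hx.1))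
      (hord x hx)).2) (by
      filter_upwards [h.near_three τ h1 m] with w hw
      rw [← hw.2, h.eq _ hw.1, zero_sub, neg_neg]
      rfl)
  refine ⟨x₁, hx1, hx2, hx3, |C| + |(m : ℝ)| * |Real.log (A + 1)|,
    max (T₀ / (A + 1)) (max 1 (Real.pi * |τ|)), by positivity,
    (le_max_left _ _).trans (le_max_right _ _), fun T hT => ?_⟩
  have hT1 : 1 ≤ T := ((le_max_left _ _).trans (le_max_right _ _)).trans hT
  have hTτ : Real.pi * |τ| ≤ T := ((le_max_right _ _).trans (le_max_right _ _)).trans hT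
  have hTT : T₀ ≤ (A + 1) * T := by
    have := (le_max_left _ _).trans hT
    rw [div_le_iff₀ hA1] at this
    linarith
  have h3 := hC _ hTT
  rw [hJ T hT1 hTτ] at h3
  have e1 : x₀ / (A + 1) * ((A + 1) * T) = x₀ * T := by field_simp
  have e2 : x₁ / (A + 1) * ((A + 1) * T) = x₁ * T := by field_simp
  have hT0 : 0 < T := by linarith
  rw [e1, e2, Real.log_mul hA1.ne' hT0.ne'] at h3
  have e3 : -VV lam c τ T - m * ((Real.log T + grow (x₀ * T) : ℝ) : ℂ) =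
      (-VV lam c τ T - m * ((Real.log (A + 1) + Real.log T + grow (x₀ * T) : ℝ) : ℂ)) +
        ((m * Real.log (A + 1) : ℝ) : ℂ) := by
    push_cast
    ring
  have h1e : 1 ≤ Real.exp (Real.exp (x₁ * T)) := Real.one_le_exp (Real.exp_pos _).le
  rw [e3]
  refine (norm_add_le _ _).trans ?_
  rw [norm_real, Real.norm_eq_abs, abs_mul]
  have h4 : C * Real.exp (Real.exp (x₁ * T)) ≤ |C| * Real.exp (Real.exp (x₁ * T)) :=
    mul_le_mul_of_nonneg_right (le_abs_self C) (Real.exp_pos _).le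
  have h5 : |(m : ℝ)| * |Real.log (A + 1)| ≤
      |(m : ℝ)| * |Real.log (A + 1)| * Real.exp (Real.exp (x₁ * T)) :=
    le_mul_of_one_le_right (by positivity) h1e
  rw [add_mul]
  linarith

/-- **The asymptotic formula**, with the leading coefficient -/
theorem asymp_free (h : Ser lam c A F) (τ : ℝ) {m : ℤ} (hm : meromorphicOrderAt F 0 = m)
    (hnz : ∀ x : ℝ, 0 < x → meromorphicOrderAt F (rp τ x) = 0) :
    ∃ q0 : ℂ, exp q0 = dir τ ^ m * meromorphicTrailingCoeffAt F 0 ∧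
      ∃ C T₀ : ℝ, 0 ≤ C ∧ 1 ≤ T₀ ∧ ∀ T ≥ T₀,
      ‖VV lam c τ T - (q0 - m * (Real.log T - (kap : ℝ)))‖ ≤ C / T := by
  have hA := h.A0
  have hA1 : 0 < A + 1 := by linarith
  have hA1c : (((A + 1 : ℝ)) : ℂ) ≠ 0 := by exact_mod_cast hA1.ne'
  have hm' : meromorphicOrderAt F (rp τ 0) = m := by rw [rp_zero]; exact hm
  have e00 : (0 : ℝ) / (A + 1) = 0 := zero_div _
  have hord : ∀ x ∈ Set.Icc (0 : ℝ) 3, meromorphicOrderAt (RR F A τ 0 m) (x : ℂ) = 0 := by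
    intro x hx
    rcases hx.1.lt_or_eq with h2 | h2
    · refine h.R_ne τ 0 m hx.1 (by rw [e00]; exact h2.ne') (hnz _ (by positivity))
    · have h3 := h.R_zero τ le_rfl hm'
      rw [e00] at h3
      rw [← h2]
      exact h3
  -- the value at `0`
  have hval : nfm (RR F A τ 0 m) 0 =
      (dir τ * ((A + 1 : ℝ) : ℂ)) ^ m * meromorphicTrailingCoeffAt F 0 := by
    have hmer0 := h.mer_R τ 0 m (x := 0) le_rfl
    rw [ofReal_zero] at hmer0
    have h0' := hord 0 ⟨le_rfl, by norm_num⟩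
    rw [ofReal_zero] at h0'
    have hc : ContinuousAt (nfm (RR F A τ 0 m)) 0 := (nfm_analytic hmer0 h0').1.continuousAt
    have e1 : nfm (RR F A τ 0 m) =ᶠ[𝓝[≠] 0] RR F A τ 0 m := by
      have h1 := (nfm_eq hmer0).filter_mono (nhdsWithin_le_nhds (s := {0}ᶜ))
      refine h1.trans ?_
      filter_upwards [self_mem_nhdsWithin] with w hw
      exact (hmer0.eqOn_compl_singleton_toMeromorphicNFAt hw).symm
    have t1 : Tendsto (RR F A τ 0 m) (𝓝[≠] 0) (𝓝 (nfm (RR F A τ 0 m) 0)) :=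
      (hc.tendsto.mono_left nhdsWithin_le_nhds).congr' e1
    have hmF : MeromorphicAt F 0 := h.mer _ (by simp)
    have t2 := hmF.tendsto_nhds_meromorphicTrailingCoeffAt
    have h2 : (meromorphicOrderAt F 0).untop₀ = m := by rw [hm]; rfl
    rw [h2] at t2
    have hL0 : LL A τ 0 = 0 := by
      unfold LL
      simp
    have t3 : Tendsto (LL A τ) (𝓝[≠] 0) (𝓝[≠] 0) := by
      refine tendsto_nhdsWithin_of_tendsto_nhds_of_eventually_within _ ?_ ?_
      · have := (LL_an A τ 0).continuousAt.tendsto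
        rw [hL0] at this
        exact this.mono_left nhdsWithin_le_nhds
      · filter_upwards [self_mem_nhdsWithin] with w hw hw2
        have hw3 : w ≠ 0 := by simpa using hw
        apply hw3
        have e' : dir τ * (((A + 1 : ℝ) : ℂ) * w) = 0 := hw2
        exact (mul_eq_zero.1 ((mul_eq_zero.1 e').resolve_left (dir_ne τ))).resolve_left hA1c
    have t4 := (t2.comp t3).const_mul ((dir τ * ((A + 1 : ℝ) : ℂ)) ^ m)
    refine tendsto_nhds_unique t1 (t4.congr' ?_)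
    filter_upwards [self_mem_nhdsWithin] with w hw
    have hw3 : w ≠ 0 := by simpa using hw
    have hd : dir τ * ((A + 1 : ℝ) : ℂ) ≠ 0 := mul_ne_zero (dir_ne τ) hA1c
    have e5 : LL A τ w - 0 = (dir τ * ((A + 1 : ℝ) : ℂ)) * w := by
      unfold LL
      ring
    have e6 : (w - ((0 / (A + 1) : ℝ) : ℂ)) = w := by
      rw [e00, ofReal_zero, sub_zero]
    have e7 : (dir τ * ((A + 1 : ℝ) : ℂ)) ^ m * ((dir τ * ((A + 1 : ℝ) : ℂ)) * w) ^ (-m) =
        w ^ (-m) := by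
      rw [mul_zpow (dir τ * ((A + 1 : ℝ) : ℂ)) w, ← mul_assoc, ← zpow_add₀ hd, add_neg_cancel,
        zpow_zero, one_mul]
    unfold RR
    rw [e6, ← e7, mul_assoc, ← e5]
    simp only [Function.comp_apply, Pi.mul_apply, Pi.pow_apply, Pi.smul_apply, smul_eq_mul,
      sub_zero]
    try rfl
  obtain ⟨κ, hκ, hS1, hS2, hS3, hJ⟩ := setup h τ
  obtain ⟨q0, hq0, C, T₀, hC0, hT₀, hC⟩ := refined_abs (S := fun ζ => -DD lam c (LL A τ ζ))
    (G := fun _ => 0)
    (Q := nfm (RR F A τ 0 m)) (κ := κ) (CG := 0)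
    (CS := ∑' i, ‖c i‖ * Real.exp (-(lam i * (A + 1)))) hκ m
    (fun ζ h2 h3 => by fun_prop) (fun ζ h2 h3 => by simp)
    hS1 hS2 hS3
    (fun x hx => (nfm_analytic (h.mer_R τ 0 m hx.1) (hord x hx)).1)
    (fun x hx => (nfm_analytic (h.mer_R τ 0 m hx.1) (hord x hx)).2) (by
      filter_upwards [h.near_three τ hA m] with w hw
      have e6 : (w - ((0 / (A + 1) : ℝ) : ℂ)) = w := by
        rw [e00, ofReal_zero, sub_zero]
      have hw2 := hw.2
      rw [e6] at hw2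
      rw [← hw2, h.eq _ hw.1, zero_sub, neg_neg]
      rfl)
  refine ⟨q0 - m * (Real.log (A + 1) : ℝ), ?_, C / (A + 1), max (T₀ / (A + 1)) (max 1 (Real.pi * |τ|)),
    by positivity, (le_max_left _ _).trans (le_max_right _ _), fun T hT => ?_⟩
  · rw [exp_sub, hq0, hval, exp_int_mul, ← ofReal_exp, Real.exp_log hA1, mul_zpow]
    have : (((A + 1 : ℝ)) : ℂ) ^ m ≠ 0 := zpow_ne_zero _ hA1c
    field_simp
  have hT1 : 1 ≤ T := ((le_max_left _ _).trans (le_max_right _ _)).trans hT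
  have hTτ : Real.pi * |τ| ≤ T := ((le_max_right _ _).trans (le_max_right _ _)).trans hT
  have hTT : T₀ ≤ (A + 1) * T := by
    have := (le_max_left _ _).trans hT
    rw [div_le_iff₀ hA1] at this
    linarith
  have hT0 : 0 < T := by linarith
  have h3 := hC _ hTT
  rw [hJ T hT1 hTτ, J_log_eq, Real.log_mul hA1.ne' hT0.ne'] at h3
  have e3 : VV lam c τ T - (q0 - m * (Real.log (A + 1) : ℝ) - m * (Real.log T - (kap : ℝ))) =
      -(-VV lam c τ T - (m * (((Real.log (A + 1) + Real.log T : ℝ) : ℂ) - (kap : ℝ)) - q0)) := by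
    push_cast
    ring
  rw [e3, norm_neg, div_div]
  exact h3

end Pool.Agent.U745.DS
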