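import Pool.Agent.U745.DS.Tfae

/-!
# Euler products over sets of generalized primes
-/

set_option autoImplicit false

namespace Pool.Agent.U745.DS.G

open NumberField IsDedekindDomain Filter Topology Complex

/-- the norms of the primes -/
structure Norms {P : Type} (q : P → ℕ) : Prop where
  two : ∀ v, 2 ≤ q v
  sum : ∀ σ : ℝ, 1 < σ → Summable fun v => (q v : ℝ) ^ (-σ)

variable {P : Type} {q : P → ℕ} {N : ℕ} {α : P → Fin N → ℂ} {F : ℂ → ℂ} {σ₀ wt : ℝ}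

lemma Norms.pos (hq : Norms q) (v : P) : (0 : ℝ) < q v := by
  have := hq.two v
  exact_mod_cast (by omega : 0 < q v)

lemma Norms.two_le (hq : Norms q) (v : P) : (2 : ℝ) ≤ q v := by exact_mod_cast hq.two v

/-- the frequencies `k log q_v`, `k = j + 1` -/
noncomputable def plam (q : P → ℕ) (x : P × ℕ) : ℝ :=
  (x.2 + 1) * Real.log (q x.1)

/-- the coefficients `∑_j α_{v,j}^k / k` -/
noncomputable def pco (α : P → Fin N → ℂ)
    (x : P × ℕ) : ℂ :=
  (∑ j, α x.1 j ^ (x.2 + 1)) / (x.2 + 1)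

/-- the Euler product -/
noncomputable def EPr (q : P → ℕ) (α : P → Fin N → ℂ) (s : ℂ) : ℂ :=
  ∏' v : P, ∏ j, (1 - α v j * (q v : ℂ) ^ (-s))⁻¹

lemma plam_nonneg (hq : Norms q) (x : P × ℕ) : 0 ≤ plam q x := by
  unfold plam
  have := hq.two_le x.1
  have : 0 ≤ Real.log (q x.1) := Real.log_nonneg (by linarith)
  positivity

lemma exp_plam (hq : Norms q) (x : P × ℕ) (s : ℂ) :
    exp (-(plam q x * s)) = ((q x.1 : ℂ) ^ (-s)) ^ (x.2 + 1) := by
  have h0 := hq.pos x.1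
  have hc : ((q x.1 : ℕ) : ℂ) ≠ 0 := by exact_mod_cast h0.ne'
  rw [cpow_def_of_ne_zero hc, ← Complex.exp_nat_mul]
  congr 1
  unfold plam
  rw [← natCast_log]
  push_cast
  ring

lemma rexp_plam (hq : Norms q) (x : P × ℕ) (σ : ℝ) :
    Real.exp (-(plam q x * σ)) = ((q x.1 : ℝ) ^ (-σ)) ^ (x.2 + 1) := by
  have h0 := hq.pos x.1
  rw [← Real.rpow_natCast, ← Real.rpow_mul h0.le, Real.rpow_def_of_pos h0]
  congr 1
  unfold plam
  push_cast
  ring

lemma pco_le (hq : Norms q) (hα : ∀ v j, ‖α v j‖ ≤ (q v : ℝ) ^ wt) (x : P × ℕ) :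
    ‖pco α x‖ ≤ N * ((q x.1 : ℝ) ^ wt) ^ (x.2 + 1) := by
  unfold pco
  rw [norm_div]
  have h1 : ‖((x.2 : ℂ) + 1)‖ = (x.2 : ℝ) + 1 := by
    have : ((x.2 : ℂ) + 1) = ((x.2 + 1 : ℕ) : ℂ) := by push_cast; rfl
    rw [this, Complex.norm_natCast]
    push_cast
    rfl
  rw [h1, div_le_iff₀ (by positivity)]
  have h2 : ‖∑ j, α x.1 j ^ (x.2 + 1)‖ ≤ N * ((q x.1 : ℝ) ^ wt) ^ (x.2 + 1) := by
    refine (norm_sum_le _ _).trans ?_
    have : ∀ j ∈ (Finset.univ : Finset (Fin N)), ‖α x.1 j ^ (x.2 + 1)‖ ≤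
        ((q x.1 : ℝ) ^ wt) ^ (x.2 + 1) := by
      intro j _
      rw [norm_pow]
      exact pow_le_pow_left₀ (norm_nonneg _) (hα _ _) _
    refine (Finset.sum_le_sum this).trans ?_
    simp
  refine h2.trans ?_
  have h3 : (0 : ℝ) ≤ N * ((q x.1 : ℝ) ^ wt) ^ (x.2 + 1) := by positivity
  nlinarith [Nat.cast_nonneg (α := ℝ) x.2]

lemma base_le (hq : Norms q) (v : P) {σ : ℝ} (hσ : wt + 1 < σ) :
    (q v : ℝ) ^ wt * (q v : ℝ) ^ (-σ) ≤ 1 / 2 := by
  have h0 := hq.pos v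
  have h2 := hq.two_le v
  rw [← Real.rpow_add h0]
  calc (q v : ℝ) ^ (wt + -σ) ≤ (q v : ℝ) ^ (-1 : ℝ) :=
        Real.rpow_le_rpow_of_exponent_le (by linarith) (by linarith)
    _ = (q v : ℝ)⁻¹ := Real.rpow_neg_one _
    _ ≤ 2⁻¹ := inv_anti₀ (by norm_num) h2
    _ = 1 / 2 := by norm_num

theorem psum (hq : Norms q) (hα : ∀ v j, ‖α v j‖ ≤ (q v : ℝ) ^ wt) {σ : ℝ} (hσ : wt + 1 < σ) :
    Summable fun x : P × ℕ => ‖pco α x‖ * Real.exp (-(plam q x * σ)) := by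
  have hg : Summable fun n : ℕ => (1 / 2 : ℝ) ^ n :=
    summable_geometric_of_lt_one (by norm_num) (by norm_num)
  have hs : Summable fun v : P => (q v : ℝ) ^ (-(σ - wt)) :=
    hq.sum _ (by linarith)
  have h1 := (hs.mul_left (N : ℝ)).mul_of_nonneg hg
    (fun v => by
      have := hq.pos v
      show 0 ≤ (N : ℝ) * (q v : ℝ) ^ (-(σ - wt))
      positivity) (fun n => by positivity)
  refine Summable.of_nonneg_of_le (fun x => by positivity) (fun x => ?_) h1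
  have h0 := hq.pos x.1
  rw [rexp_plam hq]
  set y : ℝ := (q x.1 : ℝ) ^ wt * (q x.1 : ℝ) ^ (-σ) with hy
  have hy0 : 0 ≤ y := by positivity
  have hy1 : y ≤ 1 / 2 := base_le hq x.1 hσ
  have hy2 : y = (q x.1 : ℝ) ^ (-(σ - wt)) := by
    rw [hy, ← Real.rpow_add h0]
    congr 1
    ring
  calc ‖pco α x‖ * ((q x.1 : ℝ) ^ (-σ)) ^ (x.2 + 1)
      ≤ (N * ((q x.1 : ℝ) ^ wt) ^ (x.2 + 1)) * ((q x.1 : ℝ) ^ (-σ)) ^ (x.2 + 1) := by
        gcongr
        exact pco_le hq hα x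
    _ = N * y * y ^ x.2 := by
      rw [hy, mul_assoc, ← mul_pow, pow_succ]
      ring
    _ ≤ N * (q x.1 : ℝ) ^ (-(σ - wt)) * (1 / 2) ^ x.2 := by
      rw [← hy2]
      gcongr

theorem factor (hq : Norms q) (hα : ∀ v j, ‖α v j‖ ≤ (q v : ℝ) ^ wt) {s : ℂ} (hs : wt + 1 < s.re)
    (v : P) :
    HasSum (fun n : ℕ => pco α (v, n) * exp (-(plam q (v, n) * s)))
      (∑ j, -log (1 - α v j * (q v : ℂ) ^ (-s))) ∧
    exp (∑ j, -log (1 - α v j * (q v : ℂ) ^ (-s))) =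
      ∏ j, (1 - α v j * (q v : ℂ) ^ (-s))⁻¹ := by
  have h0 := hq.pos v
  have hlt : ∀ j, ‖α v j * (q v : ℂ) ^ (-s)‖ < 1 := by
    intro j
    rw [norm_mul, norm_natCast_cpow_of_pos (by exact_mod_cast h0)]
    calc ‖α v j‖ * (q v : ℝ) ^ (-s).re ≤ (q v : ℝ) ^ wt * (q v : ℝ) ^ (-s.re) := by
          rw [neg_re]
          gcongr
          exact hα v j
      _ ≤ 1 / 2 := base_le hq v hs
      _ < 1 := by norm_num
  have hs1 : ∀ z : ℂ, ‖z‖ < 1 →
      HasSum (fun n : ℕ => z ^ (n + 1) / ((n + 1 : ℕ) : ℂ)) (-log (1 - z)) := by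
    intro z hz
    have := Complex.hasSum_taylorSeries_neg_log hz
    rw [← hasSum_nat_add_iff' 1] at this
    simpa using this
  constructor
  · have h1 := hasSum_sum (s := (Finset.univ : Finset (Fin N))) fun j _ => hs1 _ (hlt j)
    refine h1.congr_fun ?_
    intro n
    rw [exp_plam hq]
    unfold pco
    simp only
    rw [Finset.sum_div, Finset.sum_mul]
    refine Finset.sum_congr rfl fun j _ => ?_
    rw [mul_pow]
    push_cast
    ring
  · rw [exp_sum]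
    refine Finset.prod_congr rfl fun j _ => ?_
    rw [exp_neg, exp_log]
    intro h
    rw [sub_eq_zero] at h
    have := hlt j
    rw [← h] at this
    simp at this

theorem EPr_eq (hq : Norms q) (hα : ∀ v j, ‖α v j‖ ≤ (q v : ℝ) ^ wt) {s : ℂ} (hs : wt + 1 < s.re) :
    EPr q α s = exp (∑' x, pco α x * exp (-(plam q x * s))) := by
  have h0 : Summable fun x : P × ℕ => pco α x * exp (-(plam q x * s)) := by
    refine Summable.of_norm_bounded (psum hq hα hs) fun x => ?_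
    rw [norm_term]
  have h2 := h0.hasSum.prod_fiberwise (fun v => (factor hq hα hs v).1)
  have h3 := h2.cexp
  have h4 : (exp ∘ fun v => ∑ j, -log (1 - α v j * (q v : ℂ) ^ (-s))) =
      fun v => ∏ j, (1 - α v j * (q v : ℂ) ^ (-s))⁻¹ := by
    funext v
    exact (factor hq hα hs v).2
  rw [h4] at h3
  exact h3.tprod_eq

/-- the data for an Euler product -/
theorem half_nf (hq : Norms q) (hα : ∀ v j, ‖α v j‖ ≤ (q v : ℝ) ^ wt)
    (hm : ∀ s : ℂ, σ₀ ≤ s.re → MeromorphicAt F s) (he : ∀ s : ℂ, wt + 1 < s.re → F s = EPr q α s) :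
    Half (plam q) (pco α) σ₀ (wt + 1) F :=
  ⟨plam_nonneg hq, fun σ hσ => psum hq hα hσ, hm, fun s hs => (he s hs).trans (EPr_eq hq hα hs)⟩

end Pool.Agent.U745.DS.G
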