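import Pool.Agent.U745.LT.Fin

/-!
# Mittag-Leffler means of the logarithm of a Dirichlet series in an arbitrary direction
-/

set_option autoImplicit false

namespace Pool.Agent.U745.DS

open Filter Topology MeasureTheory Complex
open Pool.Agent.W524.RY (dir dir_re dir_im dir_ne dir_mul_re dir_mul_real_re inv_gamma_le J_cexp
  main_abs)
open Pool.Agent.W189.ML (HS J J_hasSum J_const_mul Adm grow grow_ge grow_zero exp_gap grow_nonneg)
open Pool.Agent.W189.LC (kap J_log_eq)
open Pool.Agent.R409.RA (nfm nfm_analytic nfm_eq nfm_self order_of_ne)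
open Pool.Agent.U745.LT (refined_abs Leading leading_iff)

variable {ι : Type} [Countable ι] {lam : ι → ℝ} {c : ι → ℂ} {A : ℝ} {F : ℂ → ℂ}

/-- `log F(s) = ∑ c_i e^{-λ_i s}` for `Re s > A`, and `F` is meromorphic for `Re s ≥ 0` -/
structure Ser (lam : ι → ℝ) (c : ι → ℂ) (A : ℝ) (F : ℂ → ℂ) : Prop where
  A0 : 0 ≤ A
  pos : ∀ i, 0 ≤ lam i
  sum : ∀ σ : ℝ, A < σ → Summable fun i => ‖c i‖ * Real.exp (-(lam i * σ))
  mer : ∀ s : ℂ, 0 ≤ s.re → MeromorphicAt F s
  eq : ∀ s : ℂ, A < s.re → F s = exp (∑' i, c i * exp (-(lam i * s)))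

/-- the Dirichlet series -/
noncomputable def DD (lam : ι → ℝ) (c : ι → ℂ) (s : ℂ) : ℂ := ∑' i, c i * exp (-(lam i * s))

/-- the mean -/
noncomputable def VV (lam : ι → ℝ) (c : ι → ℂ) (τ T : ℝ) : ℂ :=
  ∑' i, c i * (Gamma (1 + dir τ * (lam i / T)))⁻¹

omit [Countable ι] in
lemma norm_term (i : ι) (s : ℂ) :
    ‖c i * exp (-(lam i * s))‖ = ‖c i‖ * Real.exp (-(lam i * s.re)) := by
  rw [norm_mul, norm_exp]
  congr 2
  rw [neg_re, re_ofReal_mul]

omit [Countable ι] in
lemma norm_term_le (h : Ser lam c A F) (i : ι) {s : ℂ} {σ : ℝ} (hs : σ ≤ s.re) :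
    ‖c i * exp (-(lam i * s))‖ ≤ ‖c i‖ * Real.exp (-(lam i * σ)) := by
  rw [norm_term]
  gcongr
  exact h.pos i

omit [Countable ι] in
theorem DD_diff (h : Ser lam c A F) {s : ℂ} (hs : A < s.re) : DifferentiableAt ℂ (DD lam c) s := by
  set σ : ℝ := (A + s.re) / 2 with hσ
  have h1 : A < σ := by rw [hσ]; linarith
  have h2 : σ < s.re := by rw [hσ]; linarith
  have ho : IsOpen {z : ℂ | σ < z.re} := isOpen_lt continuous_const continuous_re
  have h3 : DifferentiableOn ℂ (fun z => ∑' i, c i * exp (-(lam i * z))) {z : ℂ | σ < z.re} := by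
    refine differentiableOn_tsum_of_summable_norm (h.sum σ h1) (fun i => ?_) ho
      (fun i z hz => norm_term_le h i (le_of_lt hz))
    fun_prop
  exact (h3 s h2).differentiableAt (ho.mem_nhds h2)

omit [Countable ι] in
theorem DD_le (h : Ser lam c A F) {s : ℂ} (hs : A + 1 ≤ s.re) :
    ‖DD lam c s‖ ≤ ∑' i, ‖c i‖ * Real.exp (-(lam i * (A + 1))) :=
  tsum_of_norm_bounded (h.sum (A + 1) (by linarith)).hasSum fun i => norm_term_le h i hs

omit [Countable ι] in
lemma Ser.analytic (h : Ser lam c A F) {s : ℂ} (hs : A < s.re) : AnalyticAt ℂ F s ∧ F s ≠ 0 := by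
  have ho : IsOpen {z : ℂ | A < z.re} := isOpen_lt continuous_const continuous_re
  constructor
  · have h1 : DifferentiableOn ℂ (DD lam c) {z : ℂ | A < z.re} := fun z hz =>
      (DD_diff h hz).differentiableWithinAt
    have h2 : AnalyticAt ℂ (fun z => exp (DD lam c z)) s := (h1.analyticAt (ho.mem_nhds hs)).cexp
    refine h2.congr ?_
    filter_upwards [ho.mem_nhds hs] with z hz
    exact (h.eq z hz).symm
  · rw [h.eq s hs]
    exact exp_ne_zero _

omit [Countable ι] in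
lemma Ser.order_right (h : Ser lam c A F) {s : ℂ} (hs : A < s.re) :
    meromorphicOrderAt F s = 0 := order_of_ne (h.analytic hs).1 (h.analytic hs).2

omit [Countable ι] in
lemma Ser.ne_top (h : Ser lam c A F) {s : ℂ} (hs : 0 ≤ s.re) : meromorphicOrderAt F s ≠ ⊤ := by
  have hU : IsPreconnected {z : ℂ | 0 ≤ z.re} := (convex_halfSpace_re_ge _).isPreconnected
  have hA := h.A0
  have h1 : A < (((A + 1 : ℝ)) : ℂ).re := by
    rw [ofReal_re]
    linarith
  refine MeromorphicOn.meromorphicOrderAt_ne_top_of_isPreconnected (fun z hz => h.mer z hz) hU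
    (x := ((A + 1 : ℝ) : ℂ)) ?_ hs ?_
  · show 0 ≤ ((A + 1 : ℝ) : ℂ).re
    linarith
  · rw [h.order_right h1]
    exact WithTop.zero_ne_top

omit [Countable ι] in
lemma Ser.punctured (h : Ser lam c A F) {s : ℂ} (hs : 0 ≤ s.re) :
    ∀ᶠ z in 𝓝[≠] s, meromorphicOrderAt F z = 0 := by
  have h1 := h.mer s hs
  filter_upwards [h1.eventually_analyticAt,
    (meromorphicOrderAt_ne_top_iff_eventually_ne_zero h1).1 (h.ne_top hs)] with z hz hz0
  exact order_of_ne hz hz0

omit [Countable ι] in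
theorem Ser.finite_bad (h : Ser lam c A F) {R : Set ℂ} (hR : IsCompact R)
    (hR2 : ∀ s ∈ R, 0 ≤ s.re) : {s | s ∈ R ∧ meromorphicOrderAt F s ≠ 0}.Finite := by
  by_contra hinf
  obtain ⟨z, hz, hacc⟩ := Set.Infinite.exists_accPt_of_subset_isCompact hinf hR (fun w hw => hw.1)
  rw [accPt_iff_frequently_nhdsNE] at hacc
  exact hacc ((h.punctured (hR2 z hz)).mono fun w hw hw2 => hw2.2 hw)

/-- the point of the ray -/
noncomputable def rp (τ x : ℝ) : ℂ := dir τ * x

lemma rp_re (τ x : ℝ) : (rp τ x).re = x := by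
  unfold rp
  rw [dir_mul_real_re]

lemma rp_im (τ x : ℝ) : (rp τ x).im = τ * x := by
  unfold rp
  rw [mul_im]
  simp

lemma rp_zero (τ : ℝ) : rp τ 0 = 0 := by
  unfold rp
  simp

lemma continuous_rp (τ : ℝ) : Continuous (rp τ) := by
  unfold rp
  fun_prop

lemma rp_injective (τ : ℝ) : Function.Injective (rp τ) := by
  intro x y hxy
  have := congrArg re hxy
  rwa [rp_re, rp_re] at this

omit [Countable ι] in
/-- the last zero or pole on a ray -/
theorem Ser.exists_last (h : Ser lam c A F) (τ : ℝ) : ∃ x₀ : ℝ, 0 ≤ x₀ ∧ x₀ ≤ A ∧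
    (∀ x : ℝ, x₀ < x → meromorphicOrderAt F (rp τ x) = 0) ∧
    (x₀ = 0 ∨ meromorphicOrderAt F (rp τ x₀) ≠ 0) := by
  classical
  have hA := h.A0
  have hbig : ∀ x : ℝ, A < x → meromorphicOrderAt F (rp τ x) = 0 := by
    intro x hx
    apply h.order_right
    rw [rp_re]
    exact hx
  have hfin : {x : ℝ | x ∈ Set.Icc (0 : ℝ) A ∧ meromorphicOrderAt F (rp τ x) ≠ 0}.Finite := by
    have h1 := h.finite_bad (R := rp τ '' Set.Icc 0 A) (isCompact_Icc.image (continuous_rp τ)) (by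
      rintro _ ⟨x, hx, rfl⟩
      rw [rp_re]
      exact hx.1)
    refine (h1.preimage (rp_injective τ).injOn).subset ?_
    rintro x ⟨hx, hx2⟩
    exact ⟨⟨x, hx, rfl⟩, hx2⟩
  by_cases hne : (hfin.toFinset).Nonempty
  · obtain ⟨x₀, hx₀, hmax⟩ := hfin.toFinset.exists_max_image (fun x => x) hne
    rw [Set.Finite.mem_toFinset] at hx₀
    refine ⟨x₀, hx₀.1.1, hx₀.1.2, fun x hx => ?_, Or.inr hx₀.2⟩
    by_contra hcon
    by_cases h2 : A < x
    · exact hcon (hbig x h2)
    · push Not at h2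
      have h3 := hmax x (by
        rw [Set.Finite.mem_toFinset]
        exact ⟨⟨by linarith [hx₀.1.1], h2⟩, hcon⟩)
      linarith
  · refine ⟨0, le_rfl, hA, fun x hx => ?_, Or.inl rfl⟩
    by_contra hcon
    by_cases h2 : A < x
    · exact hcon (hbig x h2)
    · push Not at h2
      refine hne ⟨x, ?_⟩
      rw [Set.Finite.mem_toFinset]
      exact ⟨⟨hx.le, h2⟩, hcon⟩

omit [Countable ι] in
/-- only finitely many directions with bounded slope are blocked -/
theorem Ser.blocked_finite (h : Ser lam c A F) (B : ℝ) :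
    {τ : ℝ | |τ| ≤ B ∧ ∃ x : ℝ, 0 < x ∧ meromorphicOrderAt F (rp τ x) ≠ 0}.Finite := by
  set R : Set ℂ := (Set.Icc 0 A) ×ℂ (Set.Icc (-(B * A)) (B * A)) with hR
  have hRc : IsCompact R := isCompact_Icc.reProdIm isCompact_Icc
  have h1 := h.finite_bad hRc (fun s hs => by
    rw [hR, mem_reProdIm] at hs
    exact hs.1.1)
  refine (h1.image (fun w : ℂ => w.im / w.re)).subset ?_
  rintro τ ⟨hτ, x, hx, hz⟩
  have hx1 : x ≤ A := by
    by_contra hc
    push Not at hc
    apply hz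
    apply h.order_right
    rw [rp_re]
    exact hc
  refine ⟨rp τ x, ⟨?_, hz⟩, ?_⟩
  · rw [hR, mem_reProdIm, rp_re, rp_im]
    refine ⟨⟨hx.le, hx1⟩, ?_⟩
    have h1 := abs_le.1 hτ
    have hB : 0 ≤ B := (abs_nonneg _).trans hτ
    constructor
    · nlinarith [mul_nonneg hB (sub_nonneg.2 hx1)]
    · nlinarith [mul_nonneg hB (sub_nonneg.2 hx1)]
  · simp only
    rw [rp_re, rp_im, mul_div_assoc, div_self hx.ne', mul_one]

/-! ### The mean as an integral -/

/-- absolute convergence of the mean -/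
theorem VV_summable (h : Ser lam c A F) (τ : ℝ) {T : ℝ} (hT : 0 < T) :
    Summable fun i => ‖c i * (Gamma (1 + dir τ * (lam i / T)))⁻¹‖ := by
  have hA := h.A0
  set B : ℝ := (A + 1) * T + Real.pi * |τ| with hB
  have hB0 : 0 ≤ B := by positivity
  refine Summable.of_nonneg_of_le (fun i => norm_nonneg _) (fun i => ?_)
    ((h.sum (A + 1) (by linarith)).mul_left (Real.exp (Real.exp B) + 1))
  have hv : 0 ≤ lam i / T := div_nonneg (h.pos i) hT.le
  have h2 := inv_gamma_le τ hB0 hv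
  have h3 : Real.exp (-((B - Real.pi * |τ|) * (lam i / T))) =
      Real.exp (-(lam i * (A + 1))) := by
    congr 1
    rw [hB]
    field_simp
    ring
  rw [h3, ofReal_div] at h2
  rw [norm_mul]
  calc ‖c i‖ * ‖(Gamma (1 + dir τ * (lam i / T)))⁻¹‖
      ≤ ‖c i‖ * ((Real.exp (Real.exp B) + 1) * Real.exp (-(lam i * (A + 1)))) := by gcongr
    _ = _ := by ring

theorem VV_eq (h : Ser lam c A F) (τ : ℝ) {T b : ℝ} (hb0 : 0 ≤ b)
    (hre : ∀ z ∈ HS b, A + 1 ≤ (dir τ * (z / T)).re) :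
    J b (fun z => -DD lam c (dir τ * (z / T))) = -VV lam c τ T := by
  have hb : ∀ (i : ι), ∀ z ∈ HS b,
      ‖c i * exp (-(lam i * (dir τ * (z / T))))‖ ≤ ‖c i‖ * Real.exp (-(lam i * (A + 1))) :=
    fun i z hz => norm_term_le h i (hre z hz)
  have h1 := J_hasSum (a := b) hb0
    (F := fun (i : ι) z => c i * exp (-(lam i * (dir τ * (z / T)))))
    (h.sum (A + 1) (by linarith))
    (fun i => ⟨by fun_prop, ‖c i‖ * Real.exp (-(lam i * (A + 1))), 0,
      mul_nonneg (norm_nonneg _) (Real.exp_pos _).le, le_rfl,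
      fun z hz => by
        have := hb i z hz
        simpa using this⟩) hb
  have h2 : ∀ i : ι, J b (fun z => c i * exp (-(lam i * (dir τ * (z / T))))) =
      c i * (Gamma (1 + dir τ * (lam i / T)))⁻¹ := by
    intro i
    have e3 : (fun z : ℂ => c i * exp (-(lam i * (dir τ * (z / T))))) =
        fun z => c i * exp (-(z * (dir τ * (lam i / T)))) := by
      funext z
      congr 2
      ring
    rw [e3, J_const_mul, J_cexp]
  simp only [h2] at h1
  have h3 : (fun z : ℂ => -DD lam c (dir τ * (z / T))) =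
      fun z => (-1 : ℂ) * DD lam c (dir τ * (z / T)) := by
    funext z
    ring
  rw [h3, J_const_mul]
  unfold VV
  rw [h1.tsum_eq]
  unfold DD
  ring

end Pool.Agent.U745.DS
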