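import Pool.Agent.U745.DS.Asym

/-!
# The alternative for each direction
-/

set_option autoImplicit false

namespace Pool.Agent.U745.DS

open Filter Topology MeasureTheory Complex
open Pool.Agent.W524.RY (dir dir_re dir_im dir_ne dir_mul_re dir_mul_real_re)
open Pool.Agent.W189.ML (grow grow_ge grow_zero exp_gap grow_nonneg)
open Pool.Agent.W189.LC (kap)
open Pool.Agent.U745.LT (Leading leading_iff)

variable {ι : Type} [Countable ι] {lam : ι → ℝ} {c : ι → ℂ} {A : ℝ} {F : ℂ → ℂ}

/-- the mean at the level `X` -/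
noncomputable def WW (lam : ι → ℝ) (c : ι → ℂ) (τ X : ℝ) : ℂ := VV lam c τ (Real.log X)

/-- the asymptotic law: `exp(W(X)) (log X / (ω e^κ))^r = ℓ + O(1 / log X)` -/
def Law (lam : ι → ℝ) (c : ι → ℂ) (τ : ℝ) (r : ℤ) (ℓ : ℂ) : Prop :=
  ∃ C : ℝ, ∀ᶠ X : ℝ in atTop, ‖exp (WW lam c τ X) *
    (Real.log X / (dir τ * Real.exp kap)) ^ r - ℓ‖ ≤ C / Real.log X

/-- the ray contains no zeros and poles -/
def Clear (F : ℂ → ℂ) (τ : ℝ) : Prop :=
  ∀ x : ℝ, 0 < x → meromorphicOrderAt F (rp τ x) = 0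

/-- the growth of the mean is moderate -/
def Slow (lam : ι → ℝ) (c : ι → ℂ) (τ : ℝ) : Prop :=
  ∀ e : ℝ, 0 < e → ∃ᶠ X : ℝ in atTop, |(WW lam c τ X).re| ≤ Real.exp (X ^ e)

/-- the growth of the mean is exponential -/
def Fast (lam : ι → ℝ) (c : ι → ℂ) (τ : ℝ) : Prop :=
  ∃ e : ℝ, 0 < e ∧ ∀ᶠ X : ℝ in atTop, Real.exp (X ^ e) ≤ |(WW lam c τ X).re|

/-- directions with zeros or poles -/
theorem blocked (h : Ser lam c A F) (τ : ℝ) {x₀ : ℝ} (h0 : 0 < x₀)
    (h1 : x₀ ≤ A) {m : ℤ} (hm : meromorphicOrderAt F (rp τ x₀) = m) (hm0 : m ≠ 0)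
    (hnz : ∀ x : ℝ, x₀ < x → meromorphicOrderAt F (rp τ x) = 0) :
    Tendsto (fun X : ℝ => WW lam c τ X / grow (x₀ * Real.log X)) atTop (𝓝 (-m)) ∧
    ∀ e < x₀, ∀ᶠ X : ℝ in atTop, Real.exp (X ^ e) ≤ -(Int.sign m : ℝ) * (WW lam c τ X).re := by
  obtain ⟨x₁, hx1, hx2, hx3, C, T₀, hC0, hT₀, hC'⟩ := asymp h τ h0.le h1 hm hnz
  have hx3' := hx3 h0
  have hm1' : (1 : ℝ) ≤ |(m : ℝ)| := by
    have := Int.one_le_abs hm0
    exact_mod_cast this
  have hlog : Tendsto Real.log atTop atTop := Real.tendsto_log_atTop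
  have hC : ∀ᶠ X : ℝ in atTop,
      ‖-WW lam c τ X - m * ((Real.log (Real.log X) + grow (x₀ * Real.log X) : ℝ) : ℂ)‖ ≤
        C * Real.exp (Real.exp (x₁ * Real.log X)) := by
    filter_upwards [hlog.eventually (eventually_ge_atTop T₀)] with X hX
    exact hC' _ hX
  -- quantitative closeness
  have key : ∀ᶠ X : ℝ in atTop, ‖-WW lam c τ X - ((m * grow (x₀ * Real.log X) : ℝ) : ℂ)‖ ≤
      (C + |(m : ℝ)|) * Real.exp (-Real.log X) * grow (x₀ * Real.log X) := by
    have e1 := hlog.eventually (exp_gap hx1 hx3')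
    have e2 := hlog.eventually (eventually_ge_atTop 1)
    have e3 := hlog.eventually (eventually_ge_atTop (5 / x₀))
    filter_upwards [e1, e2, e3, hC] with X h2 h3 h4 h7
    set T := Real.log X with hT
    have hT1 : 1 ≤ T := h3
    have h5 : 5 ≤ x₀ * T := by
      rw [div_le_iff₀ h0] at h4
      linarith
    have h6 := grow_ge h5
    set g := grow (x₀ * T) with hg
    have hlogT : Real.log T ≤ T := (Real.log_le_sub_one_of_pos (by linarith)).trans (by linarith)
    have hlogT0 : 0 ≤ Real.log T := Real.log_nonneg hT1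
    set ee := Real.exp (Real.exp (x₁ * T)) with hee
    have h1e : 1 ≤ ee := Real.one_le_exp (Real.exp_pos _).le
    have h8 : T * ee ≤ Real.exp (-T) * g := by
      have h9 : T ≤ Real.exp T := by
        have := Real.add_one_le_exp T
        linarith
      calc T * ee ≤ Real.exp T * ee := by gcongr
        _ = Real.exp (-T) * Real.exp (Real.exp (x₁ * T) + 2 * T) := by
          rw [hee, ← Real.exp_add, ← Real.exp_add]
          congr 1
          ring
        _ ≤ Real.exp (-T) * Real.exp (Real.exp (x₀ * T - 2)) := by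
          gcongr
          linarith
        _ ≤ _ := by gcongr
    have h10 : ‖-WW lam c τ X - ((m * g : ℝ) : ℂ)‖ ≤ C * ee + |(m : ℝ)| * Real.log T := by
      have h11 : -WW lam c τ X - ((m * g : ℝ) : ℂ) =
          (-WW lam c τ X - m * ((Real.log T + g : ℝ) : ℂ)) + ((m * Real.log T : ℝ) : ℂ) := by
        push_cast
        ring
      rw [h11]
      refine (norm_add_le _ _).trans (add_le_add h7 ?_)
      rw [Complex.norm_real, Real.norm_eq_abs, abs_mul, abs_of_nonneg hlogT0]
    refine h10.trans ?_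
    have h12 : C * ee ≤ C * (T * ee) := by
      gcongr
      nlinarith
    have h13 : |(m : ℝ)| * Real.log T ≤ |(m : ℝ)| * (T * ee) := by
      gcongr
      nlinarith
    calc C * ee + |(m : ℝ)| * Real.log T ≤ (C + |(m : ℝ)|) * (T * ee) := by linarith
      _ ≤ (C + |(m : ℝ)|) * (Real.exp (-T) * g) := by gcongr
      _ = _ := by ring
  have hgpos : ∀ᶠ X : ℝ in atTop, Real.exp (Real.exp (x₀ * Real.log X - 2)) ≤
      grow (x₀ * Real.log X) := by
    have e3 := hlog.eventually (eventually_ge_atTop (5 / x₀))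
    filter_upwards [e3] with X h4
    refine grow_ge ?_
    rw [div_le_iff₀ h0] at h4
    linarith
  constructor
  · rw [tendsto_iff_norm_sub_tendsto_zero]
    refine squeeze_zero' (g := fun X => (C + |(m : ℝ)|) * Real.exp (-Real.log X))
      (Eventually.of_forall fun X => norm_nonneg _) ?_ ?_
    · filter_upwards [key, hgpos] with X h2 h3
      have hg : 0 < grow (x₀ * Real.log X) := (Real.exp_pos _).trans_le h3
      have hgc : (grow (x₀ * Real.log X) : ℂ) ≠ 0 := by exact_mod_cast hg.ne'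
      have h4 : WW lam c τ X / grow (x₀ * Real.log X) - -m =
          -((-WW lam c τ X - ((m * grow (x₀ * Real.log X) : ℝ) : ℂ)) / grow (x₀ * Real.log X)) := by
        push_cast
        field_simp
        ring
      rw [h4, norm_neg, norm_div, Complex.norm_real, Real.norm_eq_abs, abs_of_pos hg,
        div_le_iff₀ hg]
      exact h2
    · have h5 : Tendsto (fun X : ℝ => Real.exp (-Real.log X)) atTop (𝓝 0) :=
        Real.tendsto_exp_neg_atTop_nhds_zero.comp hlog
      have := h5.const_mul (C + |(m : ℝ)|)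
      simpa using this
  · intro e he
    set c' := max e 0 with hc'
    have hc0 : 0 ≤ c' := le_max_right _ _
    have hc1 : c' < x₀ := max_lt he h0
    have e1 := hlog.eventually (exp_gap hc0 hc1)
    have e4 : ∀ᶠ X : ℝ in atTop, (C + |(m : ℝ)|) * Real.exp (-Real.log X) ≤ 1 / 2 := by
      have h5 : Tendsto (fun X : ℝ => (C + |(m : ℝ)|) * Real.exp (-Real.log X)) atTop
          (𝓝 ((C + |(m : ℝ)|) * 0)) :=
        (Real.tendsto_exp_neg_atTop_nhds_zero.comp hlog).const_mul _
      rw [mul_zero] at h5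
      exact h5.eventually (eventually_le_nhds (by norm_num))
    filter_upwards [key, hgpos, e1, e4, eventually_ge_atTop 1,
      hlog.eventually (eventually_ge_atTop 1)] with X h2 h3 h4 h5 h6 h7
    set T := Real.log X with hT
    set g := grow (x₀ * T) with hg
    have hg0 : 0 < g := (Real.exp_pos _).trans_le h3
    have h8 : X ^ e ≤ Real.exp (c' * T) := by
      calc X ^ e ≤ X ^ c' := Real.rpow_le_rpow_of_exponent_le h6 (le_max_left _ _)
        _ = Real.exp (c' * T) := by
          rw [Real.rpow_def_of_pos (by linarith)]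
          congr 1
          ring
    have h9 : g / 2 ≤ (Int.sign m : ℝ) * (-WW lam c τ X).re := by
      have h10 : |(-WW lam c τ X).re - m * g| ≤ (C + |(m : ℝ)|) * Real.exp (-T) * g := by
        have := (Complex.abs_re_le_norm _).trans h2
        rwa [Complex.sub_re, Complex.ofReal_re] at this
      have h11 : (C + |(m : ℝ)|) * Real.exp (-T) * g ≤ 1 / 2 * g := by gcongr
      have h12 : g ≤ |(m : ℝ)| * g := le_mul_of_one_le_left hg0.le hm1'
      have h13 : (Int.sign m : ℝ) * m = |(m : ℝ)| := by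
        have := Int.sign_mul_self_eq_abs m
        exact_mod_cast this
      have h14 : |(Int.sign m : ℝ)| = 1 := by
        rcases lt_or_gt_of_ne hm0 with h15 | h15
        · rw [Int.sign_eq_neg_one_of_neg h15]
          simp
        · rw [Int.sign_eq_one_of_pos h15]
          simp
      have h15 : (Int.sign m : ℝ) * (-WW lam c τ X).re = |(m : ℝ)| * g +
          (Int.sign m : ℝ) * ((-WW lam c τ X).re - m * g) := by
        rw [mul_sub, ← mul_assoc, h13]
        ring
      have h16 : |(Int.sign m : ℝ) * ((-WW lam c τ X).re - m * g)| ≤ 1 / 2 * g := by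
        rw [abs_mul, h14, one_mul]
        exact h10.trans h11
      rw [h15]
      linarith [(abs_le.1 h16).1]
    have h10 : 2 * Real.exp (X ^ e) ≤ g := by
      have h11 : (2 : ℝ) ≤ Real.exp 1 := by
        have := Real.add_one_le_exp (1 : ℝ)
        linarith
      calc 2 * Real.exp (X ^ e) ≤ Real.exp 1 * Real.exp (Real.exp (c' * T)) := by gcongr
        _ = Real.exp (1 + Real.exp (c' * T)) := by rw [Real.exp_add]
        _ ≤ Real.exp (Real.exp (x₀ * T - 2)) := by
          gcongr
          linarith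
        _ ≤ g := h3
    rw [neg_re] at h9
    linarith

theorem fast_of_not_clear (h : Ser lam c A F) (τ : ℝ) (hτ : ¬ Clear F τ) : Fast lam c τ := by
  unfold Clear at hτ
  push Not at hτ
  obtain ⟨y, hy, hyz⟩ := hτ
  obtain ⟨x₀, h0, h01, hnz, hz⟩ := h.exists_last τ
  have hx0 : 0 < x₀ := by
    by_contra hcon
    exact hyz (hnz y (by linarith))
  have hz' : meromorphicOrderAt F (rp τ x₀) ≠ 0 := by
    rcases hz with h2 | h2
    · exact absurd h2 hx0.ne'
    · exact h2
  obtain ⟨m, hm⟩ := WithTop.ne_top_iff_exists.1 (h.ne_top (s := rp τ x₀) (by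
    rw [rp_re]
    linarith))
  have hm0 : m ≠ 0 := by
    rintro rfl
    exact hz' (by rw [← hm]; rfl)
  refine ⟨x₀ / 2, by positivity, ?_⟩
  filter_upwards [(blocked h τ hx0 h01 hm.symm hm0 hnz).2 (x₀ / 2) (by linarith)] with X hX
  have hs : |(-(Int.sign m : ℝ))| ≤ 1 := by
    rcases lt_trichotomy m 0 with h6 | h6 | h6
    · rw [Int.sign_eq_neg_one_of_neg h6]; norm_num
    · rw [h6]; simp
    · rw [Int.sign_eq_one_of_pos h6]; norm_num
  refine hX.trans ((le_abs_self _).trans ?_)
  rw [abs_mul]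
  exact mul_le_of_le_one_left (abs_nonneg _) hs

omit [Countable ι] in
theorem not_slow_of_fast {τ : ℝ} (h : Fast lam c τ) : ¬ Slow lam c τ := by
  obtain ⟨e, he, hX⟩ := h
  intro hs
  have h1 := hs (e / 2) (half_pos he)
  have h2 : ∀ᶠ X : ℝ in atTop, Real.exp (X ^ (e / 2)) < Real.exp (X ^ e) := by
    filter_upwards [eventually_gt_atTop 1] with X hX
    apply Real.exp_lt_exp.2
    exact Real.rpow_lt_rpow_of_exponent_lt hX (by linarith)
  obtain ⟨X, h3, h4, h5⟩ := (h1.and_eventually (hX.and h2)).exists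
  linarith

omit [Countable ι] in
/-- the asymptotic formula implies moderate growth -/
theorem slow_of_law {τ : ℝ} {r : ℤ} {ℓ : ℂ} (hℓ : ℓ ≠ 0) (h : Law lam c τ r ℓ) :
    Slow lam c τ := by
  intro e he
  apply Eventually.frequently
  obtain ⟨C, hC⟩ := h
  have hlog : Tendsto Real.log atTop atTop := Real.tendsto_log_atTop
  have hek := Real.exp_pos kap
  set D : ℝ := ‖dir τ‖ * Real.exp kap with hD
  have hD0 : 0 < D := mul_pos (norm_pos_iff.2 (dir_ne τ)) hek
  set b : ℝ := ‖ℓ‖ with hb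
  have hb0 : 0 < b := norm_pos_iff.2 hℓ
  have hsmall : ∀ᶠ X : ℝ in atTop, C / Real.log X ≤ b / 2 := by
    have : Tendsto (fun X : ℝ => C / Real.log X) atTop (𝓝 0) := tendsto_const_nhds.div_atTop hlog
    exact this.eventually (eventually_le_nhds (by positivity))
  set M : ℝ := |Real.log (b / 2)| + |Real.log (3 * b / 2)| + |(r : ℝ)| * (|Real.log D| + 1) with hM
  have hM0 : 0 ≤ M := by positivity
  have hgrow : ∀ᶠ X : ℝ in atTop, M * Real.log X ≤ X ^ e := by
    have h7 : (fun X : ℝ => M * Real.log X) =o[atTop] fun X => X ^ e :=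
      (isLittleO_log_rpow_atTop he).const_mul_left _
    have h8 := h7.bound (show (0 : ℝ) < 1 by norm_num)
    filter_upwards [h8, eventually_gt_atTop 1] with X h9 hX
    have h10 : (0 : ℝ) ≤ X ^ e := Real.rpow_nonneg (by linarith) _
    rw [Real.norm_eq_abs, Real.norm_eq_abs, abs_of_nonneg h10, one_mul] at h9
    exact (le_abs_self _).trans h9
  filter_upwards [hC, hsmall, hgrow, hlog.eventually (eventually_ge_atTop 1)] with X h1 h2 h3 h4
  set T := Real.log X with hT
  have hT0 : 0 < T := by linarith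
  set z : ℂ := Complex.exp (WW lam c τ X) * (T / (dir τ * Real.exp kap)) ^ r with hz
  have h5 : ‖z - ℓ‖ ≤ b / 2 := h1.trans h2
  have h6 : b / 2 ≤ ‖z‖ := by
    have := norm_sub_norm_le ℓ z
    rw [norm_sub_rev] at this
    linarith
  have h7 : ‖z‖ ≤ 3 * b / 2 := by
    have h8 : ‖z‖ ≤ ‖z - ℓ‖ + ‖ℓ‖ := by
      have := norm_add_le (z - ℓ) ℓ
      rwa [sub_add_cancel] at this
    linarith
  have e1 : ‖(T : ℂ) / (dir τ * (Real.exp kap : ℂ))‖ = T / D := by
    rw [norm_div, norm_mul, Complex.norm_real, Complex.norm_real, Real.norm_of_nonneg hT0.le,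
      Real.norm_of_nonneg hek.le]
  have e2 : Real.log ‖z‖ = (WW lam c τ X).re + r * (Real.log T - Real.log D) := by
    rw [hz, norm_mul, Complex.norm_exp, norm_zpow, e1, Real.log_mul (Real.exp_pos _).ne'
        (zpow_pos (div_pos hT0 hD0) _).ne', Real.log_exp, Real.log_zpow,
        Real.log_div hT0.ne' hD0.ne']
  have h8 : |Real.log ‖z‖| ≤ |Real.log (b / 2)| + |Real.log (3 * b / 2)| := by
    have h9 : Real.log (b / 2) ≤ Real.log ‖z‖ := Real.log_le_log (by positivity) h6
    have h10 : Real.log ‖z‖ ≤ Real.log (3 * b / 2) := Real.log_le_log (by linarith) h7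
    rw [abs_le]
    have a1 := neg_abs_le (Real.log (b / 2))
    have a2 := le_abs_self (Real.log (3 * b / 2))
    have a3 := abs_nonneg (Real.log (b / 2))
    have a4 := abs_nonneg (Real.log (3 * b / 2))
    constructor <;> linarith
  have h9 : |Real.log T| ≤ T := by
    rw [abs_of_nonneg (Real.log_nonneg h4)]
    exact (Real.log_le_sub_one_of_pos hT0).trans (by linarith)
  have h10 : |(WW lam c τ X).re| ≤ M * T := by
    have e3 : (WW lam c τ X).re = Real.log ‖z‖ - r * (Real.log T - Real.log D) := by linarith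
    rw [e3]
    refine (abs_sub _ _).trans ?_
    rw [abs_mul]
    have h11 : |Real.log T - Real.log D| ≤ |Real.log D| + T := (abs_sub _ _).trans (by linarith)
    have h12 : |(r : ℝ)| * |Real.log T - Real.log D| ≤ |(r : ℝ)| * (|Real.log D| + T) := by gcongr
    have h13 : |(r : ℝ)| * (|Real.log D| + T) ≤ |(r : ℝ)| * (|Real.log D| + 1) * T := by
      have a5 := abs_nonneg (Real.log D)
      have a6 := abs_nonneg (r : ℝ)
      have : |Real.log D| + T ≤ (|Real.log D| + 1) * T := by nlinarith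
      nlinarith
    have h14 : |Real.log (b / 2)| + |Real.log (3 * b / 2)| ≤
        (|Real.log (b / 2)| + |Real.log (3 * b / 2)|) * T :=
      le_mul_of_one_le_right (by positivity) h4
    rw [hM]
    nlinarith
  have h15 := Real.add_one_le_exp (X ^ e)
  linarith

/-- directions without zeros -/
theorem free (h : Ser lam c A F) (τ : ℝ) {m : ℤ} (hm : meromorphicOrderAt F 0 = m)
    (hc : Clear F τ) : Law lam c τ m (meromorphicTrailingCoeffAt F 0) := by
  obtain ⟨q0, hq0, C, T₀, hC0, hT₀, hC⟩ := asymp_free h τ hm hc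
  have hlog : Tendsto Real.log atTop atTop := Real.tendsto_log_atTop
  set ℓ := meromorphicTrailingCoeffAt F 0 with hℓ
  set E : ℂ := exp q0 * (dir τ) ^ (-m) with hE
  have hd : dir τ ≠ 0 := dir_ne τ
  have hEℓ : E = ℓ := by
    rw [hE, hq0, mul_comm, ← mul_assoc, ← zpow_add₀ hd, neg_add_cancel, zpow_zero, one_mul]
  refine ⟨2 * ‖E‖ * C, ?_⟩
  have hsmall : ∀ᶠ X : ℝ in atTop, C / Real.log X ≤ 1 := by
    have : Tendsto (fun X : ℝ => C / Real.log X) atTop (𝓝 0) := tendsto_const_nhds.div_atTop hlog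
    exact this.eventually (eventually_le_nhds (by norm_num))
  filter_upwards [hlog.eventually (eventually_ge_atTop T₀),
    hlog.eventually (eventually_ge_atTop 1), hsmall] with X h1 h2 h3
  set T := Real.log X with hT
  have hT0 : 0 < T := by linarith
  have hTc : (T : ℂ) ≠ 0 := by exact_mod_cast hT0.ne'
  set δ : ℂ := WW lam c τ X - (q0 - m * (Real.log T - (kap : ℝ))) with hδ
  have hδn : ‖δ‖ ≤ C / T := hC T h1
  have hekc : ((Real.exp kap : ℝ) : ℂ) ≠ 0 := by exact_mod_cast (Real.exp_pos kap).ne'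
  have key : exp (WW lam c τ X) * (T / (dir τ * Real.exp kap)) ^ m = exp δ * E := by
    have e1 : WW lam c τ X = δ + q0 + m * ((kap - Real.log T : ℝ) : ℂ) := by
      rw [hδ]
      push_cast
      ring
    have e2 : exp (m * ((kap - Real.log T : ℝ) : ℂ)) = (((Real.exp kap : ℝ) : ℂ) / T) ^ m := by
      rw [exp_int_mul, ← ofReal_exp, Real.exp_sub, Real.exp_log hT0]
      push_cast
      rfl
    rw [e1, exp_add, exp_add, e2, hE]
    have e3 : (((Real.exp kap : ℝ) : ℂ) / T) ^ m * (T / (dir τ * Real.exp kap)) ^ m =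
        dir τ ^ (-m) := by
      rw [← mul_zpow, zpow_neg, ← inv_zpow]
      congr 1
      field_simp
    linear_combination exp δ * exp q0 * e3
  rw [key, ← hEℓ]
  have e4 : exp δ * E - E = (exp δ - 1) * E := by ring
  rw [e4, norm_mul]
  have h5 : ‖exp δ - 1‖ ≤ 2 * ‖δ‖ := norm_exp_sub_one_le (hδn.trans h3)
  calc ‖exp δ - 1‖ * ‖E‖ ≤ (2 * (C / T)) * ‖E‖ := by
        gcongr
        exact h5.trans (by linarith)
    _ = _ := by ring

/-- **The alternative.** -/
theorem alternative (h : Ser lam c A F) {r : ℤ} {ℓ : ℂ} (hℓ : ℓ ≠ 0)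
    (hr : Leading F 0 r ℓ) (τ : ℝ) :
    (Clear F τ ∧ Law lam c τ r ℓ ∧ Slow lam c τ ∧ ¬ Fast lam c τ) ∨
    (¬ Clear F τ ∧ Fast lam c τ ∧ ¬ Law lam c τ r ℓ ∧ ¬ Slow lam c τ) := by
  have hmF : MeromorphicAt F 0 := h.mer _ (by simp)
  by_cases hc : Clear F τ
  · left
    obtain ⟨h2, h3⟩ := (leading_iff hmF hℓ).1 hr
    have h4 : Law lam c τ r ℓ := by
      rw [← h3]
      exact free h τ h2 hc
    have h5 := slow_of_law hℓ h4
    exact ⟨hc, h4, h5, fun h6 => not_slow_of_fast h6 h5⟩
  · right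
    have h4 := fast_of_not_clear h τ hc
    have h5 := not_slow_of_fast h4
    exact ⟨hc, h4, fun h6 => h5 (slow_of_law hℓ h6), h5⟩

omit [Countable ι] in
theorem exists_leading (h : Ser lam c A F) : ∃ (r : ℤ) (ℓ : ℂ), ℓ ≠ 0 ∧ Leading F 0 r ℓ := by
  have h0 : (0 : ℝ) ≤ (0 : ℂ).re := by simp
  have hmF : MeromorphicAt F 0 := h.mer _ h0
  obtain ⟨r, hr⟩ := WithTop.ne_top_iff_exists.1 (h.ne_top h0)
  have hℓ : meromorphicTrailingCoeffAt F 0 ≠ 0 :=
    hmF.meromorphicTrailingCoeffAt_ne_zero (by rw [← hr]; exact WithTop.coe_ne_top)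
  exact ⟨r, _, hℓ, (leading_iff hmF hℓ).2 ⟨hr.symm, rfl⟩⟩

/-! ### Other centres -/

/-- the coefficients at the point `s₀` -/
noncomputable def sh (lam : ι → ℝ) (c : ι → ℂ) (s₀ : ℂ) (i : ι) : ℂ :=
  c i * exp (-(lam i * s₀))

omit [Countable ι] in
/-- the change of the centre -/
theorem Ser.shift (h : Ser lam c A F) {s₀ : ℂ} (hs : 0 ≤ s₀.re) :
    Ser lam (sh lam c s₀) (max (A - s₀.re) 0) (fun s => F (s₀ + s)) := by
  refine ⟨le_max_right _ _, h.pos, fun σ hσ => ?_, fun s hs2 => ?_, fun s hs2 => ?_⟩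
  · have h1 : A < s₀.re + σ := by
      have := (le_max_left (A - s₀.re) 0).trans_lt hσ
      linarith
    refine (h.sum _ h1).congr fun i => ?_
    unfold sh
    rw [norm_term, mul_assoc, ← Real.exp_add]
    congr 2
    ring
  · have h1 : MeromorphicAt F (s₀ + s) := h.mer _ (by rw [add_re]; linarith)
    have h2 : AnalyticAt ℂ (fun z : ℂ => s₀ + z) s := by fun_prop
    exact h1.comp_analyticAt h2
  · have h1 : A < (s₀ + s).re := by
      rw [add_re]
      have := (le_max_left (A - s₀.re) 0).trans_lt hs2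
      linarith
    show F (s₀ + s) = _
    rw [h.eq _ h1]
    congr 1
    refine tsum_congr fun i => ?_
    unfold sh
    rw [mul_assoc, ← exp_add]
    congr 2
    ring

lemma order_shift (F : ℂ → ℂ) (s₀ s : ℂ) :
    meromorphicOrderAt (fun z => F (s₀ + z)) s = meromorphicOrderAt F (s₀ + s) := by
  have h1 : AnalyticAt ℂ (fun z : ℂ => s₀ + z) s := by fun_prop
  have h2 : deriv (fun z : ℂ => s₀ + z) s ≠ 0 := by
    have : HasDerivAt (fun z : ℂ => s₀ + z) 1 s := by
      simpa using (hasDerivAt_id s).const_add s₀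
    rw [this.deriv]
    exact one_ne_zero
  exact meromorphicOrderAt_comp_of_deriv_ne_zero (f := F) h1 h2

/-- every point to the right of the central line is on one ray from a given centre -/
theorem clear_all (F : ℂ → ℂ) (D : Set ℝ) : (∀ τ ∈ D, Clear F τ) ↔
    ∀ s : ℂ, 0 < s.re → s.im / s.re ∈ D → meromorphicOrderAt F s = 0 := by
  have key : ∀ s : ℂ, 0 < s.re → rp (s.im / s.re) s.re = s := by
    intro s hs
    apply Complex.ext
    · rw [rp_re]
    · rw [rp_im, div_mul_cancel₀ _ hs.ne']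
  constructor
  · intro h s hs hD
    have := h _ hD s.re hs
    rwa [key s hs] at this
  · intro h τ hτ x hx
    apply h
    · rw [rp_re]
      exact hx
    · rw [rp_re, rp_im, mul_div_assoc, div_self hx.ne', mul_one]
      exact hτ

/-- every point to the right of the line is on one ray with a given direction -/
theorem clear_line (F : ℂ → ℂ) (τ : ℝ) :
    (∀ y : ℝ, Clear (fun z => F ((y : ℂ) * I + z)) τ) ↔
    ∀ s : ℂ, 0 < s.re → meromorphicOrderAt F s = 0 := by
  constructor
  · intro h s hs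
    have h1 := h (s.im - τ * s.re) s.re hs
    rw [order_shift] at h1
    have e : ((s.im - τ * s.re : ℝ) : ℂ) * I + rp τ s.re = s := by
      apply Complex.ext
      · simp [rp_re]
      · simp [rp_im]
    rwa [e] at h1
  · intro h y x hx
    rw [order_shift]
    apply h
    rw [add_re, rp_re]
    simpa using hx

end Pool.Agent.U745.DS
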