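import Pool.Agent.U745.DS.Use

/-!
# The order of a Dirichlet series from the growth of the means
-/

set_option autoImplicit false

namespace Pool.Agent.U745.DS

open Filter Topology MeasureTheory Complex
open Pool.Agent.W524.RY (dir dir_re dir_im dir_ne dir_mul_re dir_mul_real_re)
open Pool.Agent.W189.LC (kap)
open Pool.Agent.U745.LT (Leading leading_iff)

variable {ι : Type} [Countable ι] {lam : ι → ℝ} {c : ι → ℂ} {A : ℝ} {F : ℂ → ℂ}

omit [Countable ι] in
/-- the logarithm of the absolute value of the law -/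
theorem log_of_law {τ : ℝ} {r : ℤ} {ℓ : ℂ} (hℓ : ℓ ≠ 0) (h : Law lam c τ r ℓ) :
    ∃ C : ℝ, ∀ᶠ X : ℝ in atTop, |(WW lam c τ X).re + r * Real.log (Real.log X)| ≤ C := by
  have hek := Real.exp_pos kap
  set D : ℝ := ‖dir τ‖ * Real.exp kap with hD
  have hD0 : 0 < D := mul_pos (norm_pos_iff.2 (dir_ne τ)) hek
  have h1 := lim_of_rate h
  have h3 := (h1.norm).log (norm_pos_iff.2 hℓ).ne'
  have h4 : Tendsto (fun X : ℝ => (WW lam c τ X).re + r * Real.log (Real.log X / D)) atTop
      (𝓝 (Real.log ‖ℓ‖)) := by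
    refine h3.congr' ?_
    filter_upwards [Real.tendsto_log_atTop.eventually (eventually_gt_atTop 0)] with X hX
    have e1 : ‖(Real.log X : ℂ) / (dir τ * (Real.exp kap : ℂ))‖ = Real.log X / D := by
      rw [norm_div, norm_mul, Complex.norm_real, Complex.norm_real, Real.norm_of_nonneg hX.le,
        Real.norm_of_nonneg hek.le]
    rw [norm_mul, Complex.norm_exp, norm_zpow, e1, Real.log_mul (Real.exp_pos _).ne'
      (zpow_pos (div_pos hX hD0) _).ne', Real.log_exp, Real.log_zpow]
  have h5 : Tendsto (fun X : ℝ => (WW lam c τ X).re + r * Real.log (Real.log X)) atTop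
      (𝓝 (Real.log ‖ℓ‖ + r * Real.log D)) := by
    refine (h4.add_const (r * Real.log D)).congr' ?_
    filter_upwards [Real.tendsto_log_atTop.eventually (eventually_gt_atTop 0)] with X hX
    rw [Real.log_div hX.ne' hD0.ne']
    ring
  refine ⟨|Real.log ‖ℓ‖ + r * Real.log D| + 1, ?_⟩
  exact h5.abs.eventually (eventually_le_nhds (by linarith))

omit [Countable ι] in
lemma ratio_of_bound {f : ℝ → ℝ} {r : ℝ}
    (h : ∃ C : ℝ, ∀ᶠ X : ℝ in atTop, |f X + r * Real.log (Real.log X)| ≤ C) :
    Tendsto (fun X : ℝ => f X / Real.log (Real.log X)) atTop (𝓝 (-r)) := by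
  obtain ⟨C, hC⟩ := h
  have hl : Tendsto (fun X : ℝ => Real.log (Real.log X)) atTop atTop :=
    Real.tendsto_log_atTop.comp Real.tendsto_log_atTop
  rw [tendsto_iff_norm_sub_tendsto_zero]
  refine squeeze_zero' (g := fun X => C / Real.log (Real.log X))
    (Eventually.of_forall fun X => norm_nonneg _) ?_ (tendsto_const_nhds.div_atTop hl)
  filter_upwards [hC, hl.eventually (eventually_gt_atTop 0)] with X h1 h2
  rw [Real.norm_eq_abs, sub_neg_eq_add]
  have e : f X / Real.log (Real.log X) + r = (f X + r * Real.log (Real.log X)) /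
      Real.log (Real.log X) := by
    field_simp
  rw [e, abs_div, abs_of_pos h2]
  exact (div_le_div_iff_of_pos_right h2).2 h1

/-- The order is `ρ` if and only if the means grow like `- ρ log log X`, for one direction and along one
sequence. -/
theorem order_tfae (h : Ser lam c A F) (ρ : ℤ) :
    List.TFAE [
      meromorphicOrderAt F 0 = ρ,
      ∃ (τ : ℝ) (X : ℕ → ℝ), Tendsto X atTop atTop ∧
        Tendsto (fun n => (WW lam c τ (X n)).re / Real.log (Real.log (X n))) atTop (𝓝 (-ρ : ℝ)),
      ∀ τ : ℝ, Clear F τ → ∃ C : ℝ, ∀ᶠ X : ℝ in atTop,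
        |(WW lam c τ X).re + ρ * Real.log (Real.log X)| ≤ C] := by
  have hmF : MeromorphicAt F 0 := h.mer _ (by simp)
  obtain ⟨r, ℓ, hℓ0, hr⟩ := exists_leading h
  obtain ⟨g2, g3⟩ := (leading_iff hmF hℓ0).1 hr
  have hcl : ∀ τ : ℝ, Clear F τ → ∃ C : ℝ, ∀ᶠ X : ℝ in atTop,
      |(WW lam c τ X).re + r * Real.log (Real.log X)| ≤ C :=
    fun τ hτ => log_of_law hℓ0 (law_of_leading h hℓ0 hr hτ)
  tfae_have 1 → 3 := by
    intro h1 τ hτ
    have h2 : r = ρ := by
      rw [g2] at h1
      exact_mod_cast h1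
    rw [← h2]
    exact hcl τ hτ
  tfae_have 3 → 2 := by
    intro h1
    obtain ⟨τ, hτ⟩ := h.exists_clear
    exact ⟨τ, fun n => n, tendsto_natCast_atTop_atTop,
      (ratio_of_bound (h1 τ hτ)).comp tendsto_natCast_atTop_atTop⟩
  tfae_have 2 → 1 := by
    rintro ⟨τ, X, hX, h1⟩
    by_cases hτ : Clear F τ
    · have h2 := (ratio_of_bound (hcl τ hτ)).comp hX
      have h3 := tendsto_nhds_unique h1 h2
      have h4 : ρ = r := by
        have : (ρ : ℝ) = r := by linarith
        exact_mod_cast this
      rw [h4]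
      exact g2
    · exfalso
      obtain ⟨e, he, hfast⟩ := fast_of_not_clear h τ hτ
      have hlX : Tendsto (fun n => Real.log (Real.log (X n))) atTop atTop :=
        Real.tendsto_log_atTop.comp (Real.tendsto_log_atTop.comp hX)
      have h2 : ∀ᶠ n in atTop, |(WW lam c τ (X n)).re / Real.log (Real.log (X n))| ≤
          |(ρ : ℝ)| + 1 := by
        have h8 := h1.abs
        rw [abs_neg] at h8
        exact h8.eventually (eventually_le_nhds (by linarith))
      have hgap : ∀ᶠ X : ℝ in atTop, (|(ρ : ℝ)| + 1) * Real.log X < Real.exp (X ^ e) := by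
        have h7 : (fun X : ℝ => (|(ρ : ℝ)| + 1) * Real.log X) =o[atTop] fun X => X ^ e :=
          (isLittleO_log_rpow_atTop he).const_mul_left _
        have h8 := h7.bound (show (0 : ℝ) < 1 by norm_num)
        filter_upwards [h8, eventually_gt_atTop 1] with X h9 hX
        have h10 : (0 : ℝ) ≤ X ^ e := Real.rpow_nonneg (by linarith) _
        rw [Real.norm_eq_abs, Real.norm_eq_abs, abs_of_nonneg h10, one_mul] at h9
        have := le_abs_self ((|(ρ : ℝ)| + 1) * Real.log X)
        have := Real.add_one_le_exp (X ^ e)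
        linarith
      have h11 : Tendsto (fun n => Real.log (X n)) atTop atTop := Real.tendsto_log_atTop.comp hX
      obtain ⟨n, k1, k2, k3, k4, k5⟩ := ((hX.eventually hfast).and (h2.and
        ((hX.eventually hgap).and ((hlX.eventually (eventually_gt_atTop 0)).and
        (h11.eventually (eventually_ge_atTop 1)))))).exists
      have k6 : Real.log (Real.log (X n)) ≤ Real.log (X n) :=
        (Real.log_le_sub_one_of_pos (by linarith)).trans (by linarith)
      rw [abs_div, abs_of_pos k4, div_le_iff₀ k4] at k2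
      have k7 : (|(ρ : ℝ)| + 1) * Real.log (Real.log (X n)) ≤ (|(ρ : ℝ)| + 1) * Real.log (X n) := by
        gcongr
      linarith
  tfae_finish

end Pool.Agent.U745.DS
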