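import Pool.Agent.U745.DS.Law

/-!
# The equivalences for the leading term
-/

set_option autoImplicit false

namespace Pool.Agent.U745.DS

open Filter Topology MeasureTheory Complex
open Pool.Agent.W524.RY (dir dir_re dir_im dir_ne dir_mul_re dir_mul_real_re)
open Pool.Agent.W189.LC (kap)
open Pool.Agent.U745.LT (Leading leading_iff)

variable {ι : Type} [Countable ι] {lam : ι → ℝ} {c : ι → ℂ} {A : ℝ} {F : ℂ → ℂ}

lemma lim_of_rate {f : ℝ → ℂ} {b : ℂ} (h : ∃ C : ℝ, ∀ᶠ X : ℝ in atTop, ‖f X - b‖ ≤ C / Real.log X) :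
    Tendsto f atTop (𝓝 b) := by
  obtain ⟨C, hC⟩ := h
  rw [tendsto_iff_norm_sub_tendsto_zero]
  refine squeeze_zero' (g := fun X => C / Real.log X) (Eventually.of_forall fun X => norm_nonneg _)
    hC ?_
  exact tendsto_const_nhds.div_atTop Real.tendsto_log_atTop

omit [Countable ι] in
lemma Ser.exists_clear (h : Ser lam c A F) : ∃ τ : ℝ, Clear F τ := by
  by_contra hcon
  unfold Clear at hcon
  push Not at hcon
  have h1 := h.blocked_finite 1
  have h2 : {τ : ℝ | |τ| ≤ 1 ∧ ∃ x : ℝ, 0 < x ∧ meromorphicOrderAt F (rp τ x) ≠ 0} =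
      Set.Icc (-1) 1 := by
    ext τ
    simp only [Set.mem_ofPred_eq, Set.mem_Icc, ← abs_le]
    exact ⟨fun h => h.1, fun h => ⟨h, hcon τ⟩⟩
  rw [h2] at h1
  exact (Set.Icc_infinite (by norm_num : (-1 : ℝ) < 1)) h1

/-- the equivalences -/
theorem tfae (h : Ser lam c A F) (ρ : ℤ) {B : ℂ} (hB : B ≠ 0) :
    List.TFAE [
      Leading F 0 ρ B,
      ∃ (τ : ℝ) (X : ℕ → ℝ), Tendsto X atTop atTop ∧
        Tendsto (fun n => exp (WW lam c τ (X n)) *
          (Real.log (X n) / (dir τ * Real.exp kap)) ^ ρ) atTop (𝓝 B),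
      ∀ τ : ℝ, Clear F τ → Law lam c τ ρ B] := by
  have hmF : MeromorphicAt F 0 := h.mer _ (by simp)
  have hlog : Tendsto Real.log atTop atTop := Real.tendsto_log_atTop
  tfae_have 1 → 3 := by
    intro h1 τ hτ
    obtain ⟨h2, h3⟩ := (leading_iff hmF hB).1 h1
    rw [← h3]
    exact free h τ h2 hτ
  tfae_have 3 → 2 := by
    intro h1
    obtain ⟨τ, hτ⟩ := h.exists_clear
    exact ⟨τ, fun n => n, tendsto_natCast_atTop_atTop,
      (lim_of_rate (h1 τ hτ)).comp tendsto_natCast_atTop_atTop⟩
  tfae_have 2 → 1 := by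
    rintro ⟨τ, X, hX, h1⟩
    have hek := Real.exp_pos kap
    set D : ℝ := ‖dir τ‖ * Real.exp kap with hD
    have hD0 : 0 < D := mul_pos (norm_pos_iff.2 (dir_ne τ)) hek
    have hlX : Tendsto (fun n => Real.log (X n)) atTop atTop := hlog.comp hX
    -- the logarithms of the norms
    have hnorm : ∀ (ρ' : ℤ) {b : ℂ}, b ≠ 0 → Tendsto (fun n => exp (WW lam c τ (X n)) *
          (Real.log (X n) / (dir τ * Real.exp kap)) ^ ρ') atTop (𝓝 b) →
        Tendsto (fun n => (WW lam c τ (X n)).re + ρ' * Real.log (Real.log (X n) / D)) atTop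
          (𝓝 (Real.log ‖b‖)) := by
      intro ρ' b hb h2
      have h3 := (h2.norm).log (norm_pos_iff.2 hb).ne'
      refine h3.congr' ?_
      filter_upwards [hlX.eventually (eventually_gt_atTop 0)] with n hn
      have e1 : ‖(Real.log (X n) : ℂ) / (dir τ * (Real.exp kap : ℂ))‖ = Real.log (X n) / D := by
        rw [norm_div, norm_mul, Complex.norm_real, Complex.norm_real, Real.norm_of_nonneg hn.le,
          Real.norm_of_nonneg hek.le]
      rw [norm_mul, Complex.norm_exp, norm_zpow, e1, Real.log_mul (Real.exp_pos _).ne'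
        (zpow_pos (div_pos hn hD0) _).ne', Real.log_exp, Real.log_zpow]
    by_cases hτ : Clear F τ
    · obtain ⟨r, ℓ, hℓ0, hr⟩ := exists_leading h
      obtain ⟨g2, g3⟩ := (leading_iff hmF hℓ0).1 hr
      have h2' : Law lam c τ r ℓ := by
        rw [← g3]
        exact free h τ g2 hτ
      have h2 := (lim_of_rate h2').comp hX
      have h3 := hnorm r hℓ0 h2
      have h4 := hnorm ρ hB h1
      have h5 := h4.sub h3
      have hrρ : r = ρ := by
        by_contra hne
        have hne' : ((ρ : ℝ) - r) ≠ 0 := by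
          intro h6
          apply hne
          have : (r : ℝ) = ρ := by linarith
          exact_mod_cast this
        have h6 := h5.const_mul (((ρ : ℝ) - r)⁻¹)
        have h7 : (fun n => ((ρ : ℝ) - r)⁻¹ *
            ((WW lam c τ (X n)).re + ρ * Real.log (Real.log (X n) / D) -
            ((WW lam c τ (X n)).re + r * Real.log (Real.log (X n) / D)))) =
            fun n => Real.log (Real.log (X n) / D) := by
          funext n
          field_simp
          ring
        rw [h7] at h6
        have h8 : Tendsto (fun n => Real.log (X n) / D) atTop atTop := hlX.atTop_div_const hD0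
        have h9 := Real.tendsto_log_atTop.comp h8
        exact not_tendsto_nhds_of_tendsto_atTop h9 _ h6
      rw [hrρ] at h2
      have h6 := tendsto_nhds_unique h2 h1
      rw [← h6, ← hrρ]
      exact hr
    · exfalso
      obtain ⟨e, he, hfast⟩ := fast_of_not_clear h τ hτ
      have h3 := hnorm ρ hB h1
      have h4 := hX.eventually hfast
      set E := |Real.log ‖B‖| + 1 with hE
      have h5 : ∀ᶠ n in atTop, |(WW lam c τ (X n)).re + ρ * Real.log (Real.log (X n) / D)| ≤ E := by
        have h8 := h3.abs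
        exact h8.eventually (eventually_le_nhds (by rw [hE]; linarith))
      have hgap2 : ∀ᶠ X : ℝ in atTop, (|(ρ : ℝ)| * 2 + E + 1) * Real.log X < Real.exp (X ^ e) := by
        have h7 : (fun X : ℝ => (|(ρ : ℝ)| * 2 + E + 1) * Real.log X) =o[atTop]
            fun X => X ^ e :=
          (isLittleO_log_rpow_atTop he).const_mul_left _
        have h8 := h7.bound (show (0 : ℝ) < 1 by norm_num)
        filter_upwards [h8, eventually_gt_atTop 1] with X h9 hX
        have h10 : (0 : ℝ) ≤ X ^ e := Real.rpow_nonneg (by linarith) _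
        rw [Real.norm_eq_abs, Real.norm_eq_abs, abs_of_nonneg h10, one_mul] at h9
        have := le_abs_self ((|(ρ : ℝ)| * 2 + E + 1) * Real.log X)
        have := Real.add_one_le_exp (X ^ e)
        linarith
      obtain ⟨n, g1, g2, g3, g4, g5, g6⟩ := (h4.and (h5.and ((hX.eventually hgap2).and
        ((hlX.eventually (eventually_ge_atTop 1)).and
        ((hlX.eventually (eventually_ge_atTop D)).and
        (hlX.eventually (eventually_ge_atTop (1 / D)))))))).exists
      set T := Real.log (X n) with hT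
      have hT0 : 0 < T := by linarith
      have g8 : |Real.log (T / D)| ≤ 2 * T := by
        have hlT : Real.log T ≤ T := (Real.log_le_sub_one_of_pos hT0).trans (by linarith)
        rw [Real.log_div hT0.ne' hD0.ne', abs_le]
        have hD1 : Real.log D ≤ D := (Real.log_le_sub_one_of_pos hD0).trans (by linarith)
        have hD2 : -Real.log D ≤ 1 / D := by
          have := Real.log_le_sub_one_of_pos (inv_pos.2 hD0)
          rw [Real.log_inv] at this
          rw [one_div]
          linarith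
        have hlT0 : 0 ≤ Real.log T := Real.log_nonneg g4
        constructor <;> linarith
      have g9 : |(WW lam c τ (X n)).re| ≤ E + |(ρ : ℝ)| * (2 * T) := by
        have e1 : (WW lam c τ (X n)).re = ((WW lam c τ (X n)).re +
          ρ * Real.log (T / D)) + -(ρ * Real.log (T / D)) := by ring
        rw [e1]
        refine (abs_add_le _ _).trans (add_le_add g2 ?_)
        rw [abs_neg, abs_mul]
        gcongr
      have g10 : E + |(ρ : ℝ)| * (2 * T) ≤ (|(ρ : ℝ)| * 2 + E + 1) * T := by
        have hE0 : 0 ≤ E := by rw [hE]; positivity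
        nlinarith [abs_nonneg (ρ : ℝ)]
      linarith
  tfae_finish

/-! ### Arbitrary half-planes and points -/

/-- `F(s) = exp (∑ c_i e^{-λ_i s})` for `Re s > A`, and `F` is meromorphic for `Re s ≥ σ₀` -/
structure Half (lam : ι → ℝ) (c : ι → ℂ) (σ₀ A : ℝ) (F : ℂ → ℂ) : Prop where
  pos : ∀ i, 0 ≤ lam i
  sum : ∀ σ : ℝ, A < σ → Summable fun i => ‖c i‖ * Real.exp (-(lam i * σ))
  mer : ∀ s : ℂ, σ₀ ≤ s.re → MeromorphicAt F s
  eq : ∀ s : ℂ, A < s.re → F s = exp (∑' i, c i * exp (-(lam i * s)))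

variable {σ₀ : ℝ}

omit [Countable ι] in
/-- the data at a point of the half-plane -/
theorem Half.at (h : Half lam c σ₀ A F) {s₀ : ℂ} (hs : σ₀ ≤ s₀.re) :
    Ser lam (sh lam c s₀) (max (A - s₀.re) 0) (fun s => F (s₀ + s)) := by
  refine ⟨le_max_right _ _, h.pos, fun σ hσ => ?_, fun s hs2 => ?_, fun s hs2 => ?_⟩
  · have h1 : A < s₀.re + σ := by
      have := (le_max_left (A - s₀.re) 0).trans_lt hσ
      linarith
    refine (h.sum _ h1).congr fun i => ?_
    unfold sh
    rw [norm_term, mul_assoc, ← Real.exp_add]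
    congr 2
    ring
  · have h1 : MeromorphicAt F (s₀ + s) := h.mer _ (by rw [add_re]; linarith)
    have h2 : AnalyticAt ℂ (fun z : ℂ => s₀ + z) s := by fun_prop
    exact h1.comp_analyticAt h2
  · have h1 : A < (s₀ + s).re := by
      rw [add_re]
      have := (le_max_left (A - s₀.re) 0).trans_lt hs2
      linarith
    show F (s₀ + s) = _
    rw [h.eq _ h1]
    congr 1
    refine tsum_congr fun i => ?_
    unfold sh
    rw [mul_assoc, ← exp_add]
    congr 2
    ring

lemma leading_shift (F : ℂ → ℂ) (s₀ : ℂ) (ρ : ℤ) (B : ℂ) :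
    Leading (fun s => F (s₀ + s)) 0 ρ B ↔ Leading F s₀ ρ B := by
  unfold Leading
  have e1 : Filter.map (fun s : ℂ => s₀ + s) (𝓝[≠] 0) = 𝓝[≠] s₀ := by
    have := (Homeomorph.addLeft s₀).isInducing
    have h2 := (Homeomorph.addLeft s₀).isEmbedding.map_nhdsWithin_eq ({0}ᶜ) 0
    simpa using h2
  rw [← e1, Filter.tendsto_map'_iff]
  refine tendsto_congr fun s => ?_
  simp

/-- the point `s₀ + (1 + iτ) x` -/
noncomputable def ray (s₀ : ℂ) (τ x : ℝ) : ℂ := s₀ + (1 + τ * I) * x

lemma ray_eq (s₀ : ℂ) (τ x : ℝ) : ray s₀ τ x = s₀ + rp τ x := rfl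

lemma clear_iff (F : ℂ → ℂ) (s₀ : ℂ) (τ : ℝ) : Clear (fun s => F (s₀ + s)) τ ↔
    ∀ x : ℝ, 0 < x → meromorphicOrderAt F (ray s₀ τ x) = 0 := by
  unfold Clear
  refine forall_congr' fun x => imp_congr_right fun _ => ?_
  rw [order_shift, ray_eq]

end Pool.Agent.U745.DS
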