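import Pool.Agent.U745.DS.EP
import Pool.Agent.TH958.An.Zeta
import Pool.Agent.Helper240.ZU.A1

/-!
# The Riemann zeta function
-/

set_option autoImplicit false

namespace Pool.Agent.U745.DS.Z

open Filter Topology Complex MeasureTheory Set
open Pool.Agent.TH958.An (zeta_mero zeta_order_one)
open Pool.Agent.U745.LT (Leading leading_iff)

/-- the norms of the rational primes -/
abbrev qp (p : Nat.Primes) : ℕ := (p : ℕ)

/-- the trivial parameters -/
abbrev one1 : Nat.Primes → Fin 1 → ℂ := fun _ _ => 1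

theorem norms_p : G.Norms qp where
  two := fun p => p.2.two_le
  sum := fun σ hσ => Nat.Primes.summable_rpow.2 (by linarith)

theorem zeta_half (σ₀ : ℝ) : Half (G.plam qp) (G.pco one1) σ₀ (0 + 1) riemannZeta :=
  G.half_nf (wt := 0) norms_p (fun v j => by simp [one1]) (fun s _ => zeta_mero s) (fun s hs => by
    have hs' : 1 < s.re := by linarith
    rw [← riemannZeta_eulerProduct_tprod hs']
    unfold G.EPr
    refine tprod_congr fun p => ?_
    simp [one1, qp])

/-! ### Orders -/

theorem zeta_an {s : ℂ} (hs : s ≠ 1) : AnalyticAt ℂ riemannZeta s := by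
  have : DifferentiableOn ℂ riemannZeta ({1}ᶜ : Set ℂ) := fun z hz =>
    (differentiableAt_riemannZeta hz).differentiableWithinAt
  exact this.analyticAt (isOpen_compl_singleton.mem_nhds hs)

theorem order_ne_top (s : ℂ) : meromorphicOrderAt riemannZeta s ≠ ⊤ := by
  have h := (zeta_half s.re).at (s₀ := s) le_rfl
  have h1 := h.ne_top (s := 0) (by simp)
  rw [order_shift, add_zero] at h1
  exact h1

theorem order_eq {s : ℂ} (hs : s ≠ 1) :
    meromorphicOrderAt riemannZeta s = ((analyticOrderNatAt riemannZeta s : ℤ) : WithTop ℤ) := by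
  have h1 := (zeta_an hs).meromorphicOrderAt_eq
  have h2 := order_ne_top s
  have h3 : analyticOrderAt riemannZeta s ≠ ⊤ := by
    intro h
    rw [h1, h] at h2
    exact h2 rfl
  rw [h1, ← Nat.cast_analyticOrderNatAt h3]
  rfl

theorem order_zero_iff (s : ℂ) : meromorphicOrderAt riemannZeta s = 0 ↔
    s ≠ 1 ∧ riemannZeta s ≠ 0 := by
  by_cases hs : s = 1
  · subst hs
    rw [zeta_order_one]
    constructor
    · intro h
      have : (-1 : ℤ) = 0 := by exact_mod_cast h
      omega
    · intro h
      exact absurd rfl h.1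
  · rw [order_eq hs]
    have h3 : analyticOrderAt riemannZeta s ≠ ⊤ := by
      have h1 := (zeta_an hs).meromorphicOrderAt_eq
      have h2 := order_ne_top s
      intro h
      rw [h1, h] at h2
      exact h2 rfl
    have h4 : analyticOrderNatAt riemannZeta s = 0 ↔ riemannZeta s ≠ 0 := by
      rw [← (zeta_an hs).analyticOrderAt_eq_zero, ← Nat.cast_analyticOrderNatAt h3]
      exact_mod_cast Iff.rfl
    constructor
    · intro h
      refine ⟨hs, h4.1 ?_⟩
      have : ((analyticOrderNatAt riemannZeta s : ℕ) : ℤ) = 0 := by exact_mod_cast h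
      exact_mod_cast this
    · rintro ⟨-, h⟩
      rw [h4.2 h]
      rfl

/-- zeta has no zeros on the real segment -/
theorem real_ne {x : ℝ} (h0 : 0 < x) (h1 : x < 1) : riemannZeta (x : ℂ) ≠ 0 := by
  have hx1 : (x : ℂ) ≠ 1 := by
    intro h
    have : x = 1 := by exact_mod_cast h
    linarith
  have h := ZU.J_a1.zf_one (x : ℂ) (by simpa using h0) hx1
  have hi : (∫ u in Ioi (1 : ℝ), ((Int.fract u : ℝ) : ℂ) * (u : ℂ) ^ (-(x : ℂ) - 1)) =
      ((∫ u in Ioi (1 : ℝ), Int.fract u * u ^ (-x - 1) : ℝ) : ℂ) := by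
    rw [← integral_complex_ofReal]
    refine setIntegral_congr_fun measurableSet_Ioi fun u hu => ?_
    have hu0 : (0 : ℝ) ≤ u := by
      have : (1 : ℝ) < u := hu
      linarith
    push_cast
    rw [Complex.ofReal_cpow hu0]
    push_cast
    rfl
  have hnn : 0 ≤ ∫ u in Ioi (1 : ℝ), Int.fract u * u ^ (-x - 1) := by
    refine setIntegral_nonneg measurableSet_Ioi fun u hu => ?_
    have hu0 : (0 : ℝ) ≤ u := by
      have : (1 : ℝ) < u := hu
      linarith
    exact mul_nonneg (Int.fract_nonneg u) (Real.rpow_nonneg hu0 _)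
  intro h0'
  rw [hi, h0'] at h
  have h2 : (0 : ℝ) = 1 + 1 / (x - 1) - x * ∫ u in Ioi (1 : ℝ), Int.fract u * u ^ (-x - 1) := by
    exact_mod_cast h
  have h3 : 1 + 1 / (x - 1) < 0 := by
    have : x - 1 < 0 := by linarith
    have h4 : 1 + 1 / (x - 1) = x / (x - 1) := by
      have : x - 1 ≠ 0 := this.ne
      field_simp
      ring
    rw [h4]
    exact div_neg_of_pos_of_neg h0 this
  have h5 : 0 ≤ x * ∫ u in Ioi (1 : ℝ), Int.fract u * u ^ (-x - 1) := mul_nonneg h0.le hnn
  linarith

/-- the Riemann hypothesis as the absence of zeros to the right of the line -/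
theorem rh_free : RiemannHypothesis ↔ ∀ s : ℂ, 1 / 2 < s.re → riemannZeta s ≠ 0 := by
  constructor
  · intro hRH s hs h0
    have h1 : s.re < 1 := by
      by_contra h
      exact riemannZeta_ne_zero_of_one_le_re (not_lt.1 h) h0
    have := hRH s h0 (by
      rintro ⟨n, hn⟩
      rw [hn] at hs
      have h2 : (-2 * ((n:ℂ) + 1)).re = -2 * ((n:ℝ) + 1) := by simp
      rw [h2] at hs
      have : (0:ℝ) ≤ n := Nat.cast_nonneg n
      linarith) (by
      rintro rfl
      norm_num at h1)
    linarith
  · intro hfree s hs htriv hs1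
    have hle : s.re ≤ 1 / 2 := by
      by_contra h
      exact hfree s (not_le.1 h) hs
    have hre0 : 0 < s.re := by
      by_contra h
      push Not at h
      have hs0 : s ≠ 0 := by
        rintro rfl
        rw [riemannZeta_zero] at hs
        norm_num at hs
      have h1 : ∀ n : ℕ, (1 - s) ≠ -n := by
        intro n hn
        have h2 := congrArg Complex.re hn
        simp at h2
        have : (0:ℝ) ≤ n := Nat.cast_nonneg n
        linarith
      have h2 : (1 - s) ≠ 1 := by
        intro h3
        apply hs0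
        linear_combination -h3
      have h3 := riemannZeta_one_sub h1 h2
      rw [sub_sub_cancel, hs] at h3
      have hz : riemannZeta (1 - s) ≠ 0 := riemannZeta_ne_zero_of_one_le_re (by simp; linarith)
      have hG : Complex.Gamma (1 - s) ≠ 0 := Complex.Gamma_ne_zero h1
      have hp : (2 * (Real.pi : ℂ)) ^ (-(1 - s)) ≠ 0 := by
        rw [Complex.cpow_def_of_ne_zero]
        · exact Complex.exp_ne_zero _
        · norm_num [Real.pi_ne_zero]
      have hc : Complex.cos (Real.pi * (1 - s) / 2) = 0 := by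
        by_contra hc
        exact absurd h3.symm (mul_ne_zero (mul_ne_zero (mul_ne_zero (mul_ne_zero two_ne_zero hp) hG) hc) hz)
      rw [Complex.cos_eq_zero_iff] at hc
      obtain ⟨k, hk⟩ := hc
      have hpi : (Real.pi : ℂ) ≠ 0 := by exact_mod_cast Real.pi_ne_zero
      have hs2 : s = -2 * (k : ℂ) := by
        field_simp at hk
        linear_combination (-1 : ℂ) * hk
      have hkpos : 0 < k := by
        have h4 := congrArg Complex.re hs2
        simp at h4
        have h5 : (0:ℝ) < k := by
          have h6 : s.re ≠ 0 := by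
            intro h7
            rw [h7] at h4
            have h8 : (k:ℝ) = 0 := by linarith
            apply hs0
            have h9 : (k:ℤ) = 0 := by exact_mod_cast h8
            rw [hs2, h9]
            simp
          have h10 : s.re < 0 := lt_of_le_of_ne h h6
          linarith
        exact_mod_cast h5
      apply htriv
      refine ⟨(k - 1).toNat, ?_⟩
      have h6 : (((k - 1).toNat : ℕ) : ℂ) = (k : ℂ) - 1 := by
        have : (((k - 1).toNat : ℤ)) = k - 1 := Int.toNat_of_nonneg (by omega)
        have h7 : (((k - 1).toNat : ℤ) : ℂ) = ((k - 1 : ℤ) : ℂ) := by rw [this]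
        push_cast at h7
        exact_mod_cast h7
      rw [h6, hs2]
      ring
    -- reflection
    by_contra hne
    have hlt : s.re < 1 / 2 := lt_of_le_of_ne hle hne
    have h1 : ∀ n : ℕ, s ≠ -n := by
      intro n hn
      have h2 := congrArg Complex.re hn
      simp at h2
      have : (0:ℝ) ≤ n := Nat.cast_nonneg n
      linarith
    have key := riemannZeta_one_sub h1 hs1
    rw [hs, mul_zero] at key
    exact hfree (1 - s) (by simp; linarith) key

/-! ### The means -/

/-- the mean of zeta at the point `s` in the direction `τ` -/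
noncomputable def VZ (s : ℂ) (τ X : ℝ) : ℂ :=
  WW (G.plam qp) (sh (G.plam qp) (G.pco one1) s) τ X

theorem ser (s : ℂ) : Ser (G.plam qp) (sh (G.plam qp) (G.pco one1) s) (max (0 + 1 - s.re) 0)
    (fun z => riemannZeta (s + z)) := (zeta_half s.re).at le_rfl

/-- size of `exp (V)` in the free directions -/
theorem size_of_law {lam : Nat.Primes × ℕ → ℝ} {c : Nat.Primes × ℕ → ℂ} {τ : ℝ} {m : ℕ} {ℓ : ℂ}
    (hℓ : ℓ ≠ 0) (h : Law lam c τ m ℓ) : ∃ a b : ℝ, 0 < a ∧ 0 < b ∧ ∀ᶠ X : ℝ in atTop,
      a / Real.log X ^ m ≤ ‖exp (WW lam c τ X)‖ ∧ ‖exp (WW lam c τ X)‖ ≤ b / Real.log X ^ m := by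
  have h1 := lim_of_rate h
  have hek := Real.exp_pos Pool.Agent.W189.LC.kap
  set D : ℝ := ‖Pool.Agent.W524.RY.dir τ‖ * Real.exp Pool.Agent.W189.LC.kap with hD
  have hD0 : 0 < D := mul_pos (norm_pos_iff.2 (Pool.Agent.W524.RY.dir_ne τ)) hek
  have hl0 : 0 < ‖ℓ‖ := norm_pos_iff.2 hℓ
  have h2 := h1.norm
  have e1 := h2.eventually (eventually_gt_nhds (show ‖ℓ‖ / 2 < ‖ℓ‖ by linarith))
  have e2 := h2.eventually (eventually_lt_nhds (show ‖ℓ‖ < 2 * ‖ℓ‖ by linarith))
  refine ⟨‖ℓ‖ / 2 * D ^ m, 2 * ‖ℓ‖ * D ^ m, by positivity, by positivity, ?_⟩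
  filter_upwards [e1, e2, Real.tendsto_log_atTop.eventually (eventually_gt_atTop 0)] with X h3 h4 h5
  have e3 : ‖(Real.log X : ℂ) / (Pool.Agent.W524.RY.dir τ *
      (Real.exp Pool.Agent.W189.LC.kap : ℂ))‖ = Real.log X / D := by
    rw [norm_div, norm_mul, Complex.norm_real, Complex.norm_real, Real.norm_of_nonneg h5.le,
      Real.norm_of_nonneg hek.le]
  rw [norm_mul, zpow_natCast, norm_pow, e3, div_pow] at h3 h4
  have hp : 0 < Real.log X ^ m := by positivity
  have hDm : 0 < D ^ m := by positivity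
  constructor
  · rw [div_le_iff₀ hp]
    rw [mul_div_assoc', lt_div_iff₀ hDm] at h3
    exact h3.le
  · rw [le_div_iff₀ hp]
    rw [mul_div_assoc', div_lt_iff₀ hDm] at h4
    exact h4.le

end Pool.Agent.U745.DS.Z
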